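import Mathlib
import Pool.Agent.Y123.ST.Exp

/-!
# The Lie algebra of a subtorsor is closed under brackets; unions, preimages of subtorsors
-/

set_option linter.unusedSectionVars false
set_option autoImplicit false

open Matrix MvPolynomial

namespace Pool.Agent.R919.TR

open Pool.Agent.TH127.PT Pool.Agent.Y123.ST

section brk

variable {N : Type} [Fintype N] [DecidableEq N]

theorem pderiv_comm' {α : Type} (i j : α) (P : MvPolynomial α ℂ) :
    pderiv i (pderiv j P) = pderiv j (pderiv i P) := by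
  classical
  have h : ⁅(pderiv i : Derivation ℂ (MvPolynomial α ℂ) (MvPolynomial α ℂ)),
      (pderiv j : Derivation ℂ (MvPolynomial α ℂ) (MvPolynomial α ℂ))⁆ = 0 := by
    apply MvPolynomial.derivation_ext
    intro k
    rw [Derivation.commutator_apply, pderiv_X, pderiv_X]
    have h1 : ∀ (l : α) (a : α),
        (pderiv l : Derivation ℂ (MvPolynomial α ℂ) (MvPolynomial α ℂ))
          ((Pi.single a 1 : α → MvPolynomial α ℂ) k) = 0 := by
      intro l a
      by_cases h : k = a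
      · rw [h, Pi.single_eq_same, pderiv_one]
      · rw [Pi.single_eq_of_ne h, map_zero]
    rw [h1, h1, sub_zero]
    rfl
  have h2 := congrArg (fun D => D P) h
  simp only [Derivation.commutator_apply] at h2
  exact sub_eq_zero.1 h2

/-- The second derivative. -/
noncomputable def d2 (P : MvPolynomial (N × N) ℂ) (x v u : N × N → ℂ) : ℂ :=
  ∑ b, ∑ c, eval x (pderiv c (pderiv b P)) * v c * u b

theorem d2_comm (P : MvPolynomial (N × N) ℂ) (x v u : N × N → ℂ) : d2 P x v u = d2 P x u v := by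
  unfold d2
  rw [Finset.sum_comm]
  refine Finset.sum_congr rfl fun c _ => Finset.sum_congr rfl fun b _ => ?_
  rw [pderiv_comm']
  ring

theorem dd_DL (w : Matrix N N ℂ) (P : MvPolynomial (N × N) ℂ) (x v : N × N → ℂ) :
    dd (DL w P) x v = d2 P x v (ml w x) + dd P x (ml w v) := by
  unfold DL
  rw [dd_sum]
  unfold d2
  rw [show dd P x (ml w v) = ∑ b, eval x (pderiv b P) * ml w v b from rfl,
    ← Finset.sum_add_distrib]
  refine Finset.sum_congr rfl fun b _ => ?_
  rw [dd_mul, eval_sb, dd_sb]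
  congr 1
  unfold dd
  rw [Finset.sum_mul]

theorem LL_brk {T : Set (Matrix N N ℂ)} {v w : Matrix N N ℂ} (hv : fl v ∈ LL T)
    (hw : fl w ∈ LL T) : fl (v * w - w * v) ∈ LL T := by
  intro P hP x hx
  have h1 := hv _ (van_DL hw hP) x hx
  have h2 := hw _ (van_DL hv hP) x hx
  rw [dd_DL] at h1 h2
  rw [um_fl] at h1 h2 ⊢
  have e1 : ml w (fl (v * x)) = fl (w * v * x) := by
    rw [ml_fl, Matrix.mul_assoc]
  have e2 : ml v (fl (w * x)) = fl (v * w * x) := by
    rw [ml_fl, Matrix.mul_assoc]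
  rw [e1, ml_fl] at h1
  rw [e2, ml_fl] at h2
  rw [d2_comm] at h1
  have h3 : fl ((v * w - w * v) * x) = fl (v * w * x) + (-1 : ℂ) • fl (w * v * x) := by
    rw [Matrix.sub_mul, ← fl_smul, ← fl_add, neg_one_smul, sub_eq_add_neg]
  rw [h3, dd_add_right, dd_smul_right]
  linear_combination h2 - h1

end brk

section sub

variable {N M : Type} [Fintype N] [DecidableEq N] [Fintype M] [DecidableEq M]

/-- A larger field. -/
theorem sub_mono {K L : Subfield ℂ} (h : K ≤ L) {T : Set (Matrix N N ℂ)} (hT : IsSubtorsor K T) :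
    IsSubtorsor L T := by
  obtain ⟨I, h1, h2⟩ := hT.algebraic
  exact ⟨hT.isUnit, hT.torsor, I, fun p hp m => h (h1 p hp m), h2⟩

/-- Substitution of polynomials over `K`. -/
theorem coeff_bind {K : Subfield ℂ} {α β : Type} [Fintype α] [Fintype β] [DecidableEq α]
    [DecidableEq β] (s : α → MvPolynomial β ℂ)
    (hs : ∀ a m, (s a).coeff m ∈ K) {p : MvPolynomial α ℂ} (hp : ∀ m, p.coeff m ∈ K) :
    ∀ m, (bind₁ s p).coeff m ∈ K := by
  obtain ⟨p0, rfl⟩ := exists_map p hp
  choose s0 hs0 using fun a => exists_map (s a) (hs a)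
  have h : bind₁ s (p0.map (algebraMap K ℂ)) = (bind₁ s0 p0).map (algebraMap K ℂ) := by
    rw [map_bind₁]
    congr 1
    congr 1
    funext a
    exact (hs0 a).symm
  intro m
  rw [h, coeff_map]
  exact (MvPolynomial.coeff m (bind₁ s0 p0)).2

theorem eval_bind {α β : Type} (s : α → MvPolynomial β ℂ) (p : MvPolynomial α ℂ) (y : β → ℂ) :
    eval y (bind₁ s p) = eval (fun a => eval y (s a)) p := by
  rw [← MvPolynomial.coe_aeval_eq_eval, ← MvPolynomial.coe_aeval_eq_eval]
  change aeval y (bind₁ s p) = aeval _ p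
  rw [aeval_bind₁]
  rfl

/-- Preimages of subtorsors. -/
theorem sub_pull {K : Subfield ℂ} {D : Set (Matrix N N ℂ)} (hD : IsSubtorsor K D)
    {T : Set (Matrix M M ℂ)} (hT : IsSubtorsor K T) (φ : Matrix N N ℂ → Matrix M M ℂ)
    (s : M × M → MvPolynomial (N × N) ℂ) (hs : ∀ a m, (s a).coeff m ∈ K)
    (hφ : ∀ x ∈ D, ∀ a b, φ x a b = eval (fun b => x b.1 b.2) (s (a, b)))
    (hu : ∀ x ∈ D, IsUnit (φ x))
    (htor : ∀ x ∈ D, ∀ y ∈ D, ∀ z ∈ D, φ (x * y⁻¹ * z) = φ x * (φ y)⁻¹ * φ z) :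
    IsSubtorsor K {x | x ∈ D ∧ φ x ∈ T} := by
  obtain ⟨I, h1, h2⟩ := hD.algebraic
  obtain ⟨I', h1', h2'⟩ := hT.algebraic
  refine ⟨fun x hx => hD.isUnit x hx.1, fun x hx y hy z hz => ?_, I ∪ (bind₁ s '' I'), ?_, ?_⟩
  · exact ⟨hD.torsor x hx.1 y hy.1 z hz.1, by
      rw [htor x hx.1 y hy.1 z hz.1]
      exact hT.torsor _ hx.2 _ hy.2 _ hz.2⟩
  · rintro p (hp | ⟨p, hp, rfl⟩) m
    · exact h1 p hp m
    · exact coeff_bind s hs (h1' p hp) m
  · intro x
    have key : x ∈ D → ∀ p, eval (fun b : N × N => x b.1 b.2) (bind₁ s p) =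
        eval (fun b : M × M => φ x b.1 b.2) p := by
      intro hx p
      rw [eval_bind]
      congr 1
      congr 1
      funext a
      exact (hφ x hx a.1 a.2).symm
    constructor
    · rintro ⟨hx, hx'⟩
      refine ⟨hD.isUnit x hx, ?_⟩
      rintro p (hp | ⟨p, hp, rfl⟩)
      · exact ((h2 x).1 hx).2 p hp
      · rw [key hx]
        exact ((h2' _).1 hx').2 p hp
    · rintro ⟨hx, hx'⟩
      have hxD : x ∈ D := (h2 x).2 ⟨hx, fun p hp => hx' p (Or.inl hp)⟩
      refine ⟨hxD, (h2' _).2 ⟨hu x hxD, fun p hp => ?_⟩⟩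
      have h3 := hx' _ (Or.inr ⟨p, hp, rfl⟩)
      rwa [key hxD] at h3

/-- The block diagonal matrices with respect to a colouring. -/
def Blk {C : Type} (col : N → C) : Set (Matrix N N ℂ) :=
  {x | IsUnit x ∧ ∀ a b, col a ≠ col b → x a b = 0}

theorem blk_mul {C : Type} {col : N → C} {x y : Matrix N N ℂ}
    (hx : ∀ a b, col a ≠ col b → x a b = 0) (hy : ∀ a b, col a ≠ col b → y a b = 0) :
    ∀ a b, col a ≠ col b → (x * y) a b = 0 := by
  intro a b hab
  rw [Matrix.mul_apply]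
  refine Finset.sum_eq_zero fun c _ => ?_
  by_cases h : col a = col c
  · rw [hy c b (fun h' => hab (h.trans h')), mul_zero]
  · rw [hx a c h, zero_mul]

theorem blk_inv {C : Type} {col : N → C} {x : Matrix N N ℂ} (hu : IsUnit x)
    (hx : ∀ a b, col a ≠ col b → x a b = 0) : ∀ a b, col a ≠ col b → x⁻¹ a b = 0 := by
  classical
  intro a b hab
  let e : Matrix N N ℂ := Matrix.diagonal fun c => if col c = col a then 1 else 0
  have hdet : IsUnit x.det := (Matrix.isUnit_iff_isUnit_det x).1 hu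
  have h1 : e * x = x * e := by
    ext c d
    rw [Matrix.diagonal_mul, Matrix.mul_diagonal]
    by_cases h : col c = col d
    · rw [h, mul_comm]
    · rw [hx c d h, mul_zero, zero_mul]
  have h2 : x⁻¹ * e = e * x⁻¹ := by
    calc x⁻¹ * e = x⁻¹ * (e * x) * x⁻¹ := by
          rw [Matrix.mul_assoc, Matrix.mul_assoc, Matrix.mul_nonsing_inv _ hdet, Matrix.mul_one]
      _ = e * x⁻¹ := by
          rw [h1, ← Matrix.mul_assoc, Matrix.nonsing_inv_mul _ hdet, Matrix.one_mul]
  have h3 := congrFun (congrFun h2 a) b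
  rw [Matrix.mul_diagonal, Matrix.diagonal_mul, if_neg (Ne.symm hab), if_pos rfl, mul_zero,
    one_mul] at h3
  exact h3.symm

theorem blk_sub (K : Subfield ℂ) {C : Type} (col : N → C) : IsSubtorsor K (Blk col) := by
  classical
  refine ⟨fun x hx => hx.1, fun x hx y hy z hz => ⟨?_, ?_⟩,
    {p | ∃ a b, col a ≠ col b ∧ p = X (a, b)}, ?_, ?_⟩
  · exact (hx.1.mul ((Matrix.isUnit_nonsing_inv_iff).2 hy.1)).mul hz.1
  · exact blk_mul (blk_mul hx.2 (blk_inv hy.1 hy.2)) hz.2
  · rintro _ ⟨a, b, _, rfl⟩ m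
    rw [coeff_X]
    split_ifs
    · exact K.one_mem
    · exact K.zero_mem
  · intro x
    constructor
    · rintro ⟨h1, h2⟩
      refine ⟨h1, ?_⟩
      rintro _ ⟨a, b, hab, rfl⟩
      rw [eval_X]
      exact h2 a b hab
    · rintro ⟨h1, h2⟩
      refine ⟨h1, fun a b hab => ?_⟩
      have h3 := h2 _ ⟨a, b, hab, rfl⟩
      rwa [eval_X] at h3

end sub

end Pool.Agent.R919.TR
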