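import Mathlib
import Pool.Agent.TH127.PT.Defs

/-!
# Smallest subtorsors and period matrices of elliptic curves: definitions
-/

set_option autoImplicit false

open Matrix

namespace Pool.Agent.R919.TR

open Pool.Agent.TH127.PT

/-- The intersection of all subtorsors over `K` which contain `M`. -/
def Omega {N : Type} [Fintype N] [DecidableEq N] (K : Subfield ℂ) (M : Matrix N N ℂ) :
    Set (Matrix N N ℂ) :=
  {X | ∀ T : Set (Matrix N N ℂ), IsSubtorsor K T → M ∈ T → X ∈ T}

/-- The field of algebraic numbers. -/
noncomputable def Qb : Subfield ℂ := (algebraicClosure ℚ ℂ).toSubfield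

/-- The block diagonal matrix with the blocks `y` and `x j`. -/
def blocks {A ι : Type} [DecidableEq ι] {C : ι → Type} (y : Matrix A A ℂ)
    (x : ∀ j, Matrix (C j) (C j) ℂ) : Matrix (A ⊕ Σ j, C j) (A ⊕ Σ j, C j) ℂ :=
  Matrix.fromBlocks y 0 0 (Matrix.blockDiagonal' x)

/-- The determinants, as matrices of size one. -/
def dets {ι : Type} {C : ι → Type} [∀ j, Fintype (C j)] [∀ j, DecidableEq (C j)]
    (x : ∀ j, Matrix (C j) (C j) ℂ) : ι → Matrix Unit Unit ℂ :=
  fun j => Matrix.of fun _ _ => (x j).det

/-- The matrices of size one with the entries `z i`. -/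
def ones {ι : Type} (z : ι → ℂ) : ι → Matrix Unit Unit ℂ := fun i => Matrix.of fun _ _ => z i

/-- The properties of the period matrix `c` of an elliptic curve without complex multiplication
over the field of algebraic numbers, with `t = 2 π i`: the size is two, the determinant is an
algebraic multiple of `t` (Legendre), and no nonzero algebraic vector is mapped to a multiple of
an algebraic vector (a consequence of the linear independence of the four periods over the
algebraic numbers). -/
structure IsEll {D : Type} [Fintype D] [DecidableEq D] (t : ℂ) (c : Matrix D D ℂ) : Prop where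
  dim : Fintype.card D = 2
  det : ∃ a : ℂ, a ≠ 0 ∧ IsAlgebraic ℚ a ∧ c.det = a * t
  simple : ∀ v : D → ℂ, v ≠ 0 → (∀ a, IsAlgebraic ℚ (v a)) → ∀ u : D → ℂ,
    (∀ a, IsAlgebraic ℚ (u a)) → ∀ r : ℂ, c *ᵥ v ≠ r • u

/-- There are no nonzero homomorphisms, over the algebraic numbers in both realisations, from the
object with the period matrix `c` to the one with the period matrix `c'`. -/
def NoHm {D D' : Type} [Fintype D] [DecidableEq D] [Fintype D'] [DecidableEq D']
    (c : Matrix D D ℂ) (c' : Matrix D' D' ℂ) : Prop :=
  ∀ Z : Matrix D' D ℂ, (∀ a b, IsAlgebraic ℚ (Z a b)) →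
    (∀ a b, IsAlgebraic ℚ ((c' * Z * c⁻¹) a b)) → Z = 0

end Pool.Agent.R919.TR
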