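import Mathlib
import Pool.Agent.R919.TR.Brk
import Pool.Agent.R919.TR.Def

/-!
# Block diagonal matrices and subtorsors
-/

set_option linter.unusedSectionVars false
set_option autoImplicit false

open Matrix MvPolynomial

namespace Pool.Agent.R919.TR

open Pool.Agent.TH127.PT Pool.Agent.Y123.ST

section big

variable {A ι : Type} [Fintype A] [DecidableEq A] [Fintype ι] [DecidableEq ι] {C : ι → Type}
  [∀ j, Fintype (C j)] [∀ j, DecidableEq (C j)]

theorem blocks_ll (y : Matrix A A ℂ) (x : ∀ j, Matrix (C j) (C j) ℂ) (a b : A) :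
    blocks y x (Sum.inl a) (Sum.inl b) = y a b := rfl

theorem blocks_lr (y : Matrix A A ℂ) (x : ∀ j, Matrix (C j) (C j) ℂ) (a : A) (b : Σ j, C j) :
    blocks y x (Sum.inl a) (Sum.inr b) = 0 := rfl

theorem blocks_rl (y : Matrix A A ℂ) (x : ∀ j, Matrix (C j) (C j) ℂ) (a : A) (b : Σ j, C j) :
    blocks y x (Sum.inr b) (Sum.inl a) = 0 := rfl

theorem blocks_rr (y : Matrix A A ℂ) (x : ∀ j, Matrix (C j) (C j) ℂ) (j : ι) (a b : C j) :
    blocks y x (Sum.inr ⟨j, a⟩) (Sum.inr ⟨j, b⟩) = x j a b := by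
  change Matrix.blockDiagonal' x ⟨j, a⟩ ⟨j, b⟩ = _
  rw [Matrix.blockDiagonal'_apply_eq]

theorem blocks_rr_ne (y : Matrix A A ℂ) (x : ∀ j, Matrix (C j) (C j) ℂ) {j k : ι} (h : j ≠ k)
    (a : C j) (b : C k) : blocks y x (Sum.inr ⟨j, a⟩) (Sum.inr ⟨k, b⟩) = 0 := by
  change Matrix.blockDiagonal' x ⟨j, a⟩ ⟨k, b⟩ = _
  rw [Matrix.blockDiagonal'_apply_ne _ _ _ h]

theorem blocks_mul (y y' : Matrix A A ℂ) (x x' : ∀ j, Matrix (C j) (C j) ℂ) :
    blocks y x * blocks y' x' = blocks (y * y') (fun j => x j * x' j) := by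
  rw [blocks, blocks, blocks, Matrix.fromBlocks_multiply, Matrix.blockDiagonal'_mul]
  simp

theorem blocks_one : blocks (1 : Matrix A A ℂ) (fun j => (1 : Matrix (C j) (C j) ℂ)) = 1 := by
  have h : (fun j => (1 : Matrix (C j) (C j) ℂ)) = 1 := rfl
  rw [blocks, h, Matrix.blockDiagonal'_one, Matrix.fromBlocks_one]

theorem blocks_add (y y' : Matrix A A ℂ) (x x' : ∀ j, Matrix (C j) (C j) ℂ) :
    blocks (y + y') (fun j => x j + x' j) = blocks y x + blocks y' x' := by
  have h : (fun j => x j + x' j) = x + x' := rfl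
  rw [blocks, blocks, blocks, Matrix.fromBlocks_add, h, Matrix.blockDiagonal'_add]
  simp

theorem blocks_sub (y y' : Matrix A A ℂ) (x x' : ∀ j, Matrix (C j) (C j) ℂ) :
    blocks (y - y') (fun j => x j - x' j) = blocks y x - blocks y' x' := by
  rw [eq_sub_iff_add_eq, ← blocks_add]
  simp

theorem blocks_smul (r : ℂ) (y : Matrix A A ℂ) (x : ∀ j, Matrix (C j) (C j) ℂ) :
    blocks (r • y) (fun j => r • x j) = r • blocks y x := by
  have h : (fun j => r • x j) = r • x := rfl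
  rw [blocks, blocks, Matrix.fromBlocks_smul, h, Matrix.blockDiagonal'_smul]
  simp

theorem blocks_zero : blocks (0 : Matrix A A ℂ) (fun j => (0 : Matrix (C j) (C j) ℂ)) = 0 := by
  have h : (fun j => (0 : Matrix (C j) (C j) ℂ)) = 0 := rfl
  rw [blocks, h, Matrix.blockDiagonal'_zero, Matrix.fromBlocks_zero]

theorem blocks_map (f : ℂ → ℂ) (hf : f 0 = 0) (y : Matrix A A ℂ)
    (x : ∀ j, Matrix (C j) (C j) ℂ) :
    (blocks y x).map f = blocks (y.map f) (fun j => (x j).map f) := by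
  ext a b
  rw [Matrix.map_apply]
  rcases a with a | ⟨j, a⟩ <;> rcases b with b | ⟨k, b⟩
  · rfl
  · rw [blocks_lr, blocks_lr, hf]
  · rw [blocks_rl, blocks_rl, hf]
  · by_cases h : j = k
    · subst h
      rw [blocks_rr, blocks_rr, Matrix.map_apply]
    · rw [blocks_rr_ne _ _ h, blocks_rr_ne _ _ h, hf]

theorem blocks_inj {y y' : Matrix A A ℂ} {x x' : ∀ j, Matrix (C j) (C j) ℂ}
    (h : blocks y x = blocks y' x') : y = y' ∧ x = x' := by
  constructor
  · ext a b
    rw [← blocks_ll y x, h, blocks_ll]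
  · funext j
    ext a b
    rw [← blocks_rr y x, h, blocks_rr]

theorem blocks_unit {y : Matrix A A ℂ} {x : ∀ j, Matrix (C j) (C j) ℂ} (hy : IsUnit y)
    (hx : ∀ j, IsUnit (x j)) : IsUnit (blocks y x) := by
  refine IsUnit.of_mul_eq_one (blocks y⁻¹ fun j => (x j)⁻¹) ?_
  rw [blocks_mul, Matrix.mul_nonsing_inv _ ((Matrix.isUnit_iff_isUnit_det y).1 hy)]
  have h : (fun j => x j * (x j)⁻¹) = fun j => 1 := by
    funext j
    exact Matrix.mul_nonsing_inv _ ((Matrix.isUnit_iff_isUnit_det _).1 (hx j))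
  rw [h, blocks_one]

theorem blocks_inv {y : Matrix A A ℂ} {x : ∀ j, Matrix (C j) (C j) ℂ} (hy : IsUnit y)
    (hx : ∀ j, IsUnit (x j)) : (blocks y x)⁻¹ = blocks y⁻¹ fun j => (x j)⁻¹ := by
  refine Matrix.inv_eq_right_inv ?_
  rw [blocks_mul, Matrix.mul_nonsing_inv _ ((Matrix.isUnit_iff_isUnit_det y).1 hy)]
  have h : (fun j => x j * (x j)⁻¹) = fun j => 1 := by
    funext j
    exact Matrix.mul_nonsing_inv _ ((Matrix.isUnit_iff_isUnit_det _).1 (hx j))
  rw [h, blocks_one]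

/-- The colouring. -/
def colr : (A ⊕ Σ j, C j) → Option ι := Sum.elim (fun _ => none) fun p => some p.1

/-- The blocks of a matrix. -/
def blA (X : Matrix (A ⊕ Σ j, C j) (A ⊕ Σ j, C j) ℂ) : Matrix A A ℂ :=
  Matrix.of fun a b => X (Sum.inl a) (Sum.inl b)

/-- The blocks of a matrix. -/
def blC (X : Matrix (A ⊕ Σ j, C j) (A ⊕ Σ j, C j) ℂ) (j : ι) : Matrix (C j) (C j) ℂ :=
  Matrix.of fun a b => X (Sum.inr ⟨j, a⟩) (Sum.inr ⟨j, b⟩)

theorem blA_blocks (y : Matrix A A ℂ) (x : ∀ j, Matrix (C j) (C j) ℂ) : blA (blocks y x) = y := by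
  ext a b
  exact blocks_ll y x a b

theorem blC_blocks (y : Matrix A A ℂ) (x : ∀ j, Matrix (C j) (C j) ℂ) (j : ι) :
    blC (blocks y x) j = x j := by
  ext a b
  exact blocks_rr y x j a b

theorem eq_blocks {X : Matrix (A ⊕ Σ j, C j) (A ⊕ Σ j, C j) ℂ}
    (hX : ∀ a b, colr a ≠ colr b → X a b = 0) : X = blocks (blA X) (blC X) := by
  ext a b
  rcases a with a | ⟨j, a⟩ <;> rcases b with b | ⟨k, b⟩
  · rfl
  · rw [blocks_lr]
    exact hX _ _ (by simp [colr])
  · rw [blocks_rl]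
    exact hX _ _ (by simp [colr])
  · by_cases h : j = k
    · subst h
      rw [blocks_rr]
      rfl
    · rw [blocks_rr_ne _ _ h]
      exact hX _ _ (by simpa [colr] using h)

theorem blocks_col (y : Matrix A A ℂ) (x : ∀ j, Matrix (C j) (C j) ℂ) :
    ∀ a b, colr a ≠ colr b → blocks y x a b = 0 := by
  intro a b hab
  rcases a with a | ⟨j, a⟩ <;> rcases b with b | ⟨k, b⟩
  · exact absurd rfl hab
  · rfl
  · rfl
  · have h : j ≠ k := fun h => hab (by simp [colr, h])
    rw [blocks_rr_ne _ _ h]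

theorem mem_blk {X : Matrix (A ⊕ Σ j, C j) (A ⊕ Σ j, C j) ℂ} :
    X ∈ Blk (colr (A := A) (C := C)) ↔ ∃ y x, IsUnit y ∧ (∀ j, IsUnit (x j)) ∧
      X = blocks y x := by
  constructor
  · rintro ⟨hu, h⟩
    have h1 := eq_blocks h
    have h2 := eq_blocks (blk_inv hu h)
    have hdet : IsUnit X.det := (Matrix.isUnit_iff_isUnit_det X).1 hu
    have h3 : X * X⁻¹ = 1 := Matrix.mul_nonsing_inv _ hdet
    rw [h2] at h3
    conv_lhs at h3 => rw [h1]
    rw [blocks_mul, ← blocks_one] at h3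
    obtain ⟨h4, h5⟩ := blocks_inj h3
    exact ⟨blA X, blC X, IsUnit.of_mul_eq_one _ h4, fun j =>
      IsUnit.of_mul_eq_one _ (congrFun h5 j), h1⟩
  · rintro ⟨y, x, hy, hx, rfl⟩
    exact ⟨blocks_unit hy hx, blocks_col y x⟩

theorem blocks_unit_iff {y : Matrix A A ℂ} {x : ∀ j, Matrix (C j) (C j) ℂ}
    (h : IsUnit (blocks y x)) : IsUnit y ∧ ∀ j, IsUnit (x j) := by
  obtain ⟨y', x', hy, hx, h1⟩ := mem_blk.1 (⟨h, blocks_col y x⟩ :
    blocks y x ∈ Blk (colr (A := A) (C := C)))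
  obtain ⟨rfl, rfl⟩ := blocks_inj h1
  exact ⟨hy, hx⟩

theorem blocks_tor {y y' y'' : Matrix A A ℂ} {x x' x'' : ∀ j, Matrix (C j) (C j) ℂ}
    (hy : IsUnit y') (hx : ∀ j, IsUnit (x' j)) :
    blocks y x * (blocks y' x')⁻¹ * blocks y'' x'' =
      blocks (y * y'⁻¹ * y'') (fun j => x j * (x' j)⁻¹ * x'' j) := by
  rw [blocks_inv hy hx, blocks_mul, blocks_mul]

end big

section poly

variable {K : Subfield ℂ}

theorem kp_of {α : Type} {p : MvPolynomial α ℂ} {p0 : MvPolynomial α K}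
    (h : p0.map (algebraMap K ℂ) = p) : ∀ m, p.coeff m ∈ K := by
  intro m
  rw [← h, coeff_map]
  exact (MvPolynomial.coeff m p0).2

theorem kp_X {α : Type} (a : α) : ∀ m, (X a : MvPolynomial α ℂ).coeff m ∈ K :=
  kp_of (p0 := X a) (map_X _ _)

theorem kp_zero {α : Type} : ∀ m, (0 : MvPolynomial α ℂ).coeff m ∈ K :=
  kp_of (p0 := 0) (map_zero _)

theorem kp_one {α : Type} : ∀ m, (1 : MvPolynomial α ℂ).coeff m ∈ K :=
  kp_of (p0 := 1) (map_one _)

theorem kp_det {α β : Type} [Fintype β] [DecidableEq β] (v : β → β → α) :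
    ∀ m, (Matrix.det (Matrix.of fun a b : β => (X (v a b) : MvPolynomial α ℂ))).coeff m ∈ K := by
  refine kp_of (p0 := Matrix.det (Matrix.of fun a b : β => (X (v a b) : MvPolynomial α K))) ?_
  rw [RingHom.map_det]
  congr 1
  ext a b : 2
  simp

theorem eval_det {α β : Type} [Fintype β] [DecidableEq β] (v : β → β → α) (y : α → ℂ) :
    eval y (Matrix.det (Matrix.of fun a b : β => (X (v a b) : MvPolynomial α ℂ))) =
      Matrix.det (Matrix.of fun a b : β => y (v a b)) := by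
  rw [RingHom.map_det]
  congr 1
  ext a b
  simp

end poly

section pull

variable {A ι : Type} [Fintype A] [DecidableEq A] [Fintype ι] [DecidableEq ι] {C : ι → Type}
  [∀ j, Fintype (C j)] [∀ j, DecidableEq (C j)]

/-- From the matrices to the determinants. -/
noncomputable def phi (X : Matrix (A ⊕ Σ j, C j) (A ⊕ Σ j, C j) ℂ) :
    Matrix (A ⊕ Σ _ : ι, Unit) (A ⊕ Σ _ : ι, Unit) ℂ := blocks (blA X) (dets (blC X))

theorem phi_blocks (y : Matrix A A ℂ) (x : ∀ j, Matrix (C j) (C j) ℂ) :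
    phi (blocks y x) = blocks y (dets x) := by
  have h : blC (blocks y x) = x := funext fun j => blC_blocks y x j
  rw [phi, blA_blocks, h]

/-- The polynomials. -/
noncomputable def sphi : (A ⊕ Σ _ : ι, Unit) × (A ⊕ Σ _ : ι, Unit) →
    MvPolynomial ((A ⊕ Σ j, C j) × (A ⊕ Σ j, C j)) ℂ
  | (Sum.inl a, Sum.inl b) => X (Sum.inl a, Sum.inl b)
  | (Sum.inr j, Sum.inr k) => if j.1 = k.1 then
      Matrix.det (Matrix.of fun a b : C j.1 => X (Sum.inr ⟨j.1, a⟩, Sum.inr ⟨j.1, b⟩)) else 0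
  | (Sum.inl _, Sum.inr _) => 0
  | (Sum.inr _, Sum.inl _) => 0

theorem dets_unit {x : ∀ j, Matrix (C j) (C j) ℂ} (h : ∀ j, IsUnit (x j)) :
    ∀ j, IsUnit (dets x j) := by
  intro j
  rw [Matrix.isUnit_iff_isUnit_det]
  rw [Matrix.det_unique]
  exact (Matrix.isUnit_iff_isUnit_det _).1 (h j)

theorem dets_mul (x x' : ∀ j, Matrix (C j) (C j) ℂ) :
    dets (fun j => x j * x' j) = fun j => dets x j * dets x' j := by
  funext j
  ext a b
  rw [Matrix.mul_apply, Fintype.sum_unique]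
  exact Matrix.det_mul _ _

theorem dets_tor {x x' x'' : ∀ j, Matrix (C j) (C j) ℂ} (h : ∀ j, IsUnit (x' j)) :
    dets (fun j => x j * (x' j)⁻¹ * x'' j) = fun j => dets x j * (dets x' j)⁻¹ * dets x'' j := by
  rw [dets_mul, dets_mul]
  funext j
  have h0 : (dets x' j)⁻¹ = dets (fun j => (x' j)⁻¹) j := by
    apply Matrix.inv_eq_right_inv
    have h1 := congrFun (dets_mul x' fun j => (x' j)⁻¹) j
    rw [← h1]
    ext a b
    rw [dets, Matrix.of_apply,
      Matrix.mul_nonsing_inv _ ((Matrix.isUnit_iff_isUnit_det _).1 (h j)),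
      Matrix.det_one, Subsingleton.elim a b, Matrix.one_apply_eq]
  rw [h0]

/-- The matrices whose determinants are in a subtorsor form a subtorsor. -/
theorem sub_phi {K : Subfield ℂ} {T : Set (Matrix (A ⊕ Σ _ : ι, Unit) (A ⊕ Σ _ : ι, Unit) ℂ)}
    (hT : IsSubtorsor K T) : IsSubtorsor K {X : Matrix (A ⊕ Σ j, C j) (A ⊕ Σ j, C j) ℂ |
      X ∈ Blk (colr (A := A) (C := C)) ∧ phi X ∈ T} := by
  refine sub_pull (blk_sub K _) hT phi sphi ?_ ?_ ?_ ?_
  · rintro ⟨a | j, b | k⟩ m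
    · exact kp_X _ m
    · exact kp_zero m
    · exact kp_zero m
    · change coeff m (if j.1 = k.1 then _ else _) ∈ K
      split_ifs
      · exact kp_det _ m
      · exact kp_zero m
  · intro x hx a b
    obtain ⟨y, x', _, _, rfl⟩ := mem_blk.1 hx
    rw [phi_blocks]
    rcases a with a | ⟨j, ⟨⟩⟩ <;> rcases b with b | ⟨k, ⟨⟩⟩
    · rw [blocks_ll]
      change _ = eval _ (X _)
      rw [eval_X]
      rfl
    · rw [blocks_lr]
      change _ = eval _ 0
      rw [map_zero]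
    · rw [blocks_rl]
      change _ = eval _ 0
      rw [map_zero]
    · change _ = eval _ (if j = k then _ else _)
      by_cases h : j = k
      · subst h
        rw [blocks_rr, if_pos rfl, eval_det]
        change (x' j).det = _
        congr 1
        ext a b
        exact (blocks_rr y x' j a b).symm
      · rw [if_neg h, blocks_rr_ne _ _ h, map_zero]
  · intro x hx
    obtain ⟨y, x', hy, hx', rfl⟩ := mem_blk.1 hx
    rw [phi_blocks]
    exact blocks_unit hy (dets_unit hx')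
  · intro x hx y hy z hz
    obtain ⟨x0, x1, _, _, rfl⟩ := mem_blk.1 hx
    obtain ⟨y0, y1, hy0, hy1, rfl⟩ := mem_blk.1 hy
    obtain ⟨z0, z1, _, _, rfl⟩ := mem_blk.1 hz
    rw [blocks_tor hy0 hy1, phi_blocks, phi_blocks, phi_blocks, phi_blocks,
      blocks_tor hy0 (dets_unit hy1), dets_tor hy1]

/-- The diagonal matrix with the entries `z` at `a` and `1` elsewhere. -/
def dia {D : Type} [DecidableEq D] (a : D) (z : ℂ) : Matrix D D ℂ :=
  Matrix.diagonal fun c => if c = a then z else 1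

theorem det_dia {D : Type} [Fintype D] [DecidableEq D] (a : D) (z : ℂ) : (dia a z).det = z := by
  rw [dia, Matrix.det_diagonal, Finset.prod_ite_eq' Finset.univ a (fun _ => z),
    if_pos (Finset.mem_univ a)]

theorem dia_mul {D : Type} [Fintype D] [DecidableEq D] (a : D) (z z' : ℂ) :
    dia a z * dia a z' = dia a (z * z') := by
  rw [dia, dia, dia, Matrix.diagonal_mul_diagonal]
  congr 1
  funext c
  split_ifs
  · rfl
  · rw [one_mul]

theorem dia_one {D : Type} [DecidableEq D] (a : D) : dia a 1 = 1 := by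
  rw [dia]
  simp

theorem dia_unit {D : Type} [Fintype D] [DecidableEq D] (a : D) {z : ℂ} (hz : z ≠ 0) :
    IsUnit (dia a z) := by
  rw [Matrix.isUnit_iff_isUnit_det, det_dia]
  exact isUnit_iff_ne_zero.2 hz

theorem dia_inv {D : Type} [Fintype D] [DecidableEq D] (a : D) {z : ℂ} (hz : z ≠ 0) :
    (dia a z)⁻¹ = dia a z⁻¹ := by
  apply Matrix.inv_eq_right_inv
  rw [dia_mul, mul_inv_cancel₀ hz, dia_one]

/-- From the determinants to the matrices. -/
noncomputable def psi (e : ∀ j, C j) (Y : Matrix (A ⊕ Σ _ : ι, Unit) (A ⊕ Σ _ : ι, Unit) ℂ) :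
    Matrix (A ⊕ Σ j, C j) (A ⊕ Σ j, C j) ℂ := blocks (blA Y) fun j => dia (e j) (blC Y j () ())

theorem psi_blocks (e : ∀ j, C j) (y : Matrix A A ℂ) (z : ι → Matrix Unit Unit ℂ) :
    psi e (blocks y z) = blocks y fun j => dia (e j) (z j () ()) := by
  rw [psi, blA_blocks]
  congr 1
  funext j
  rw [blC_blocks]

/-- The polynomials. -/
noncomputable def spsi (e : ∀ j, C j) : (A ⊕ Σ j, C j) × (A ⊕ Σ j, C j) →
    MvPolynomial ((A ⊕ Σ _ : ι, Unit) × (A ⊕ Σ _ : ι, Unit)) ℂ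
  | (Sum.inl a, Sum.inl b) => X (Sum.inl a, Sum.inl b)
  | (Sum.inr j, Sum.inr k) => if j = k then
      (if j = ⟨j.1, e j.1⟩ then X (Sum.inr ⟨j.1, ()⟩, Sum.inr ⟨j.1, ()⟩) else 1) else 0
  | (Sum.inl _, Sum.inr _) => 0
  | (Sum.inr _, Sum.inl _) => 0

/-- The determinants of the matrices in a subtorsor. -/
theorem sub_psi {K : Subfield ℂ} (e : ∀ j, C j)
    {T : Set (Matrix (A ⊕ Σ j, C j) (A ⊕ Σ j, C j) ℂ)}
    (hT : IsSubtorsor K T) :
    IsSubtorsor K {Y : Matrix (A ⊕ Σ _ : ι, Unit) (A ⊕ Σ _ : ι, Unit) ℂ |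
      Y ∈ Blk (colr (A := A) (C := fun _ : ι => Unit)) ∧ psi e Y ∈ T} := by
  have hu1 : ∀ {z : Matrix Unit Unit ℂ}, IsUnit z → z () () ≠ 0 := by
    intro z hz
    rw [Matrix.isUnit_iff_isUnit_det, Matrix.det_unique] at hz
    exact hz.ne_zero
  refine sub_pull (blk_sub K _) hT (psi e) (spsi e) ?_ ?_ ?_ ?_
  · rintro ⟨a | j, b | k⟩ m
    · exact kp_X _ m
    · exact kp_zero m
    · exact kp_zero m
    · change coeff m (if j = k then (if j = ⟨j.1, e j.1⟩ then _ else _) else _) ∈ K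
      split_ifs
      · exact kp_X _ m
      · exact kp_one m
      · exact kp_zero m
  · intro x hx a b
    obtain ⟨y, z, _, _, rfl⟩ := mem_blk.1 hx
    rw [psi_blocks]
    rcases a with a | ⟨j, a⟩ <;> rcases b with b | ⟨k, b⟩
    · rw [blocks_ll]
      change _ = eval _ (X _)
      rw [eval_X]
      rfl
    · rw [blocks_lr]
      change _ = eval _ 0
      rw [map_zero]
    · rw [blocks_rl]
      change _ = eval _ 0
      rw [map_zero]
    · change _ = eval _ (if (⟨j, a⟩ : Σ j, C j) = ⟨k, b⟩ then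
        (if (⟨j, a⟩ : Σ j, C j) = ⟨j, e j⟩ then _ else _) else _)
      by_cases h : j = k
      · subst h
        rw [blocks_rr]
        by_cases hab : a = b
        · subst hab
          rw [if_pos rfl]
          by_cases hae : a = e j
          · subst hae
            rw [if_pos rfl, eval_X, dia, Matrix.diagonal_apply_eq, if_pos rfl]
            exact (blocks_rr (C := fun _ : ι => Unit) y z j () ()).symm
          · rw [if_neg (by simpa using hae), map_one, dia, Matrix.diagonal_apply_eq, if_neg hae]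
        · rw [if_neg (by simpa using hab), map_zero, dia, Matrix.diagonal_apply_ne _ hab]
      · rw [if_neg (fun h' => h (congrArg Sigma.fst h')), map_zero, blocks_rr_ne _ _ h]
  · intro x hx
    obtain ⟨y, z, hy, hz, rfl⟩ := mem_blk.1 hx
    rw [psi_blocks]
    exact blocks_unit hy fun j => dia_unit _ (hu1 (hz j))
  · intro x hx y hy z hz
    obtain ⟨x0, x1, _, _, rfl⟩ := mem_blk.1 hx
    obtain ⟨y0, y1, hy0, hy1, rfl⟩ := mem_blk.1 hy
    obtain ⟨z0, z1, _, _, rfl⟩ := mem_blk.1 hz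
    rw [blocks_tor hy0 hy1, psi_blocks, psi_blocks, psi_blocks, psi_blocks,
      blocks_tor hy0 (fun j => dia_unit _ (hu1 (hy1 j)))]
    congr 1
    funext j
    rw [dia_inv _ (hu1 (hy1 j)), dia_mul, dia_mul]
    congr 1
    rw [Matrix.mul_apply, Fintype.sum_unique, Matrix.mul_apply, Fintype.sum_unique]
    congr 2
    have h1 : (y1 j)⁻¹ = Matrix.of fun _ _ => (y1 j () ())⁻¹ := by
      apply Matrix.inv_eq_right_inv
      ext a b
      rw [Matrix.mul_apply, Fintype.sum_unique, Subsingleton.elim a b, Matrix.one_apply_eq,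
        Matrix.of_apply]
      exact mul_inv_cancel₀ (hu1 (hy1 j))
    rw [h1]
    rfl

end pull

end Pool.Agent.R919.TR
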