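import Mathlib
import Pool.Agent.R919.DR.Par
import Pool.Agent.Y123.ST.Exp
import Pool.Agent.R919.TR.Def

/-!
# The Lie algebra over the algebraic numbers generated by the logarithmic derivatives of the periods
-/

set_option linter.unusedSectionVars false
set_option autoImplicit false

namespace Pool.Agent.R919.TR

open Matrix Module Pool.Agent.R919 Pool.Agent.R919.GT Pool.Agent.R919.DR
open Pool.Agent.TH119.DR (deriv_alg exists_deriv DefOver)

theorem mem_Qb {x : ℂ} : x ∈ Qb ↔ IsAlgebraic ℚ x := mem_algebraicClosure_iff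

/-- The automorphisms of `ℂ` which fix the algebraic numbers. -/
def Fx (σ : ℂ ≃+* ℂ) : Prop := ∀ x, IsAlgebraic ℚ x → σ x = x

theorem Fx.symm {σ : ℂ ≃+* ℂ} (h : Fx σ) : Fx σ.symm := by
  intro x hx
  rw [RingEquiv.symm_apply_eq, h x hx]

theorem Fx.trans {σ τ : ℂ ≃+* ℂ} (h : Fx σ) (h' : Fx τ) : Fx (σ.trans τ) := by
  intro x hx
  rw [RingEquiv.trans_apply, h x hx, h' x hx]

section der

variable {m n p : Type}

theorem map_alg (δ : Derivation ℚ ℂ ℂ) {Z : Matrix m n ℂ} (hZ : IsAlg Z) : Z.map δ = 0 := by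
  ext i j
  rw [Matrix.map_apply, deriv_alg δ (hZ i j)]
  rfl

variable {B B' : Type} [Fintype B] [DecidableEq B] [Fintype B'] [DecidableEq B']

theorem alg_conj {P : Matrix B B ℂ} {P' : Matrix B' B' ℂ} (hP : IsUnit P.det)
    (hP' : IsUnit P'.det) {Z : Matrix B' B ℂ} (hZ : IsAlg Z)
    (h : ∀ δ : Derivation ℚ ℂ ℂ, (P'⁻¹ * P'.map δ) * Z = Z * (P⁻¹ * P.map δ)) :
    IsAlg (P' * Z * P⁻¹) := by
  refine isAlg_of_der fun δ => ?_
  set W := P' * Z * P⁻¹ with hW
  have h1 : W * P = P' * Z := by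
    rw [hW, Matrix.mul_assoc, Matrix.nonsing_inv_mul _ hP, Matrix.mul_one]
  have h2 := congrArg (fun A => A.map δ) h1
  simp only [map_mul_der, map_alg δ hZ, Matrix.mul_zero, add_zero] at h2
  have h3 : W * P.map δ = P'.map δ * Z := by
    calc W * P.map δ = P' * (Z * (P⁻¹ * P.map δ)) := by
          rw [hW]
          simp only [Matrix.mul_assoc]
      _ = P' * (P'⁻¹ * P'.map δ * Z) := by rw [h δ]
      _ = P'.map δ * Z := by
        rw [← Matrix.mul_assoc, ← Matrix.mul_assoc, Matrix.mul_nonsing_inv _ hP', Matrix.one_mul]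
  rw [h3] at h2
  have h4 : W.map δ * P = 0 := by
    simpa using h2
  calc W.map δ = W.map δ * P * P⁻¹ := by
        rw [Matrix.mul_assoc, Matrix.mul_nonsing_inv _ hP, Matrix.mul_one]
    _ = 0 := by rw [h4, Matrix.zero_mul]

theorem vec_alg {P : Matrix B B ℂ} (hP : IsUnit P.det) (v : B → ℂ) (hv : v ≠ 0)
    (hva : ∀ a, IsAlgebraic ℚ (v a))
    (h : ∀ δ : Derivation ℚ ℂ ℂ, ∃ l : ℂ, (P⁻¹ * P.map δ) *ᵥ v = l • v) :
    ∃ (u : B → ℂ) (r : ℂ), (∀ a, IsAlgebraic ℚ (u a)) ∧ P *ᵥ v = r • u := by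
  set w : B → ℂ := P *ᵥ v with hw
  have hw0 : w ≠ 0 := by
    intro h0
    apply hv
    have h1 : P⁻¹ *ᵥ w = v := by
      rw [hw, Matrix.mulVec_mulVec, Matrix.nonsing_inv_mul _ hP, Matrix.one_mulVec]
    rw [h0, Matrix.mulVec_zero] at h1
    exact h1.symm
  obtain ⟨a, ha⟩ := Function.ne_iff.1 hw0
  rw [Pi.zero_apply] at ha
  refine ⟨fun b => w b / w a, w a, fun b => ?_, ?_⟩
  · by_contra hcon
    obtain ⟨δ, hδ⟩ := exists_deriv hcon
    apply hδ
    obtain ⟨l, hl⟩ := h δ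
    have h1 : ∀ c, δ (w c) = l * w c := by
      intro c
      have h2 : δ (w c) = ((P.map δ) *ᵥ v) c := by
        rw [hw, Matrix.mulVec, dotProduct, map_sum, Matrix.mulVec, dotProduct]
        refine Finset.sum_congr rfl fun d _ => ?_
        rw [Derivation.leibniz, Matrix.map_apply, deriv_alg δ (hva d), smul_zero, zero_add,
          smul_eq_mul, mul_comm]
      have h3 : (P.map δ) *ᵥ v = l • w := by
        calc (P.map δ) *ᵥ v = P *ᵥ ((P⁻¹ * P.map δ) *ᵥ v) := by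
              rw [Matrix.mulVec_mulVec, ← Matrix.mul_assoc, Matrix.mul_nonsing_inv _ hP,
                Matrix.one_mul]
          _ = l • w := by rw [hl, Matrix.mulVec_smul]
      rw [h2, h3, Pi.smul_apply, smul_eq_mul]
    have h4 : w b = (w b / w a) * w a := by field_simp
    have h5 := congrArg δ h4
    rw [Derivation.leibniz, h1, h1, smul_eq_mul, smul_eq_mul] at h5
    have h6 : w a * δ (w b / w a) = 0 := by
      have h7 : w b / w a * (l * w a) = l * w b := by field_simp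
      rw [h7] at h5
      linear_combination -h5
    exact (mul_eq_zero.1 h6).resolve_left ha
  · funext b
    rw [Pi.smul_apply, smul_eq_mul]
    field_simp

end der

section fam

variable {J : Type} {B : J → Type} [∀ j, Fintype (B j)] [∀ j, DecidableEq (B j)]
  (P : ∀ j, Matrix (B j) (B j) ℂ)

/-- The conjugates of the logarithmic derivatives. -/
def IsGn (D : ∀ j, Matrix (B j) (B j) ℂ) : Prop :=
  ∃ (σ : ℂ ≃+* ℂ) (δ : Derivation ℚ ℂ ℂ), Fx σ ∧
    D = FE.gal σ (fun j => (P j)⁻¹ * (P j).map δ)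

/-- The Lie algebra generated by them. -/
def LA : Submodule ℂ (∀ j, Matrix (B j) (B j) ℂ) :=
  sInf {U | (∀ D, IsGn P D → D ∈ U) ∧ ∀ x ∈ U, ∀ y ∈ U, x * y - y * x ∈ U}

/-- The derived algebra. -/
def LD : Submodule ℂ (∀ j, Matrix (B j) (B j) ℂ) :=
  Submodule.span ℂ {z | ∃ x ∈ LA P, ∃ y ∈ LA P, z = x * y - y * x}

variable {P}

theorem LA_le {U : Submodule ℂ (∀ j, Matrix (B j) (B j) ℂ)} (h1 : ∀ D, IsGn P D → D ∈ U)
    (h2 : ∀ x ∈ U, ∀ y ∈ U, x * y - y * x ∈ U) : LA P ≤ U := sInf_le ⟨h1, h2⟩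

theorem gn_mem {D : ∀ j, Matrix (B j) (B j) ℂ} (h : IsGn P D) : D ∈ LA P := by
  rw [LA, Submodule.mem_sInf]
  rintro U ⟨h1, _⟩
  exact h1 D h

theorem LA_brk {x y : ∀ j, Matrix (B j) (B j) ℂ} (hx : x ∈ LA P) (hy : y ∈ LA P) :
    x * y - y * x ∈ LA P := by
  rw [LA, Submodule.mem_sInf] at *
  rintro U ⟨h1, h2⟩
  exact h2 x (hx U ⟨h1, h2⟩) y (hy U ⟨h1, h2⟩)

theorem LA_gal {σ : ℂ ≃+* ℂ} (hσ : Fx σ) {x : ∀ j, Matrix (B j) (B j) ℂ} (hx : x ∈ LA P) :
    FE.gal σ x ∈ LA P := by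
  let U : Submodule ℂ (∀ j, Matrix (B j) (B j) ℂ) :=
    { carrier := {x | FE.gal σ x ∈ LA P}
      zero_mem' := by
        change FE.gal σ 0 ∈ LA P
        rw [FE.gal_zero]
        exact Submodule.zero_mem _
      add_mem' := by
        intro a b ha hb
        change FE.gal σ (a + b) ∈ LA P
        rw [FE.gal_add]
        exact Submodule.add_mem _ ha hb
      smul_mem' := by
        intro c a ha
        change FE.gal σ (c • a) ∈ LA P
        rw [FE.gal_smul]
        exact Submodule.smul_mem _ _ ha }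
  have h : LA P ≤ U := by
    refine LA_le ?_ (fun a ha b hb => ?_)
    · rintro _ ⟨τ, δ, hτ, rfl⟩
      refine gn_mem ⟨τ.trans σ, δ, hτ.trans hσ, ?_⟩
      rw [FE.gal_gal]
    · change FE.gal σ (a * b - b * a) ∈ LA P
      rw [FE.gal_sub, FE.gal_mul, FE.gal_mul]
      exact LA_brk ha hb
  exact h hx

theorem LD_le : LD P ≤ LA P := by
  rw [LD, Submodule.span_le]
  rintro _ ⟨x, hx, y, hy, rfl⟩
  exact LA_brk hx hy

theorem LD_brk' {x y : ∀ j, Matrix (B j) (B j) ℂ} (hx : x ∈ LA P) (hy : y ∈ LA P) :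
    x * y - y * x ∈ LD P := Submodule.subset_span ⟨x, hx, y, hy, rfl⟩

theorem LD_brk : ∀ x ∈ LD P, ∀ y ∈ LD P, x * y - y * x ∈ LD P :=
  fun _ hx _ hy => LD_brk' (LD_le hx) (LD_le hy)

theorem LD_sl (i : J) : ∀ x ∈ LD P, x i ∈ sl ℂ (B i) := by
  have h : LD P ≤ (sl ℂ (B i)).comap (LinearMap.proj i) := by
    rw [LD, Submodule.span_le]
    rintro _ ⟨a, _, b, _, rfl⟩
    exact brk_sl _ _
  exact fun x hx => h hx

/-- The basic element for the derivation `δ`. -/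
theorem dl_mem (δ : Derivation ℚ ℂ ℂ) : (fun j => (P j)⁻¹ * (P j).map δ) ∈ LA P := by
  refine gn_mem ⟨RingEquiv.refl ℂ, δ, fun _ _ => rfl, ?_⟩
  funext j
  ext a b
  simp [FE.gal]

end fam

section alg

variable {m n : Type} [Fintype m] [Fintype n]

/-- A nonzero subspace which is stable under automorphisms contains a nonzero algebraic matrix. -/
theorem exists_alg (C : Submodule ℂ (Matrix m n ℂ))
    (hC : ∀ (σ : ℂ ≃+* ℂ), Fx σ → ∀ v ∈ C, v.map σ ∈ C) {x : Matrix m n ℂ} (hx : x ∈ C)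
    (hx0 : x ≠ 0) : ∃ Z : Matrix m n ℂ, Z ≠ 0 ∧ IsAlg Z ∧ Z ∈ C := by
  let e : (m × n → ℂ) →ₗ[ℂ] Matrix m n ℂ :=
    { toFun := fun y => Matrix.of fun i j => y (i, j)
      map_add' := fun _ _ => rfl
      map_smul' := fun _ _ => rfl }
  have hd : DefOver Qb (C.comap e) := by
    refine Pool.Agent.TH119.MX.defOver_of_aut (C.comap e) fun σ hσ v hv => ?_
    exact hC σ (fun x hx => hσ x (mem_Qb.2 hx)) _ hv
  by_contra hcon
  push Not at hcon
  apply hx0
  have h1 : (fun b : m × n => x b.1 b.2) ∈ C.comap e := hx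
  have h2 : Submodule.span ℂ {w : m × n → ℂ | w ∈ C.comap e ∧ ∀ a, w a ∈ Qb} ≤ ⊥ := by
    rw [Submodule.span_le]
    rintro w ⟨hw, hw'⟩
    have h3 : e w = 0 := by
      by_contra h0
      exact hcon (e w) h0 (fun i j => mem_Qb.1 (hw' (i, j))) hw
    change w = 0
    funext b
    exact congrFun (congrFun h3 b.1) b.2
  have h3 := (Submodule.mem_bot ℂ).1 (h2 (hd h1))
  ext i j
  exact congrFun h3 (i, j)

end alg

end Pool.Agent.R919.TR
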