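import Mathlib
import Pool.Agent.R919.TR.Der

/-!
# The Lie algebra of the periods of an elliptic curve without complex multiplication
-/

set_option linter.unusedSectionVars false
set_option autoImplicit false

namespace Pool.Agent.R919.TR

open Matrix Module Pool.Agent.R919 Pool.Agent.R919.GT Pool.Agent.R919.DR

section aux

variable {B : Type} [Fintype B] [DecidableEq B]

theorem isAlg_add {A C : Matrix B B ℂ} (hA : IsAlg A) (hC : IsAlg C) : IsAlg (A + C) :=
  fun a b => (hA a b).add (hC a b)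

theorem isAlg_scalar {l : ℂ} (hl : IsAlgebraic ℚ l) : IsAlg (l • (1 : Matrix B B ℂ)) := by
  intro a b
  rw [Matrix.smul_apply, smul_eq_mul]
  refine hl.mul ?_
  by_cases h : a = b
  · rw [h, Matrix.one_apply_eq]
    exact isAlgebraic_one
  · rw [Matrix.one_apply_ne h]
    exact isAlgebraic_zero

theorem alg_trace {A : Matrix B B ℂ} (hA : IsAlg A) : IsAlgebraic ℚ (trace A) := by
  rw [Matrix.trace]
  exact Finset.sum_induction _ (IsAlgebraic ℚ) (fun a b ha hb => ha.add hb) isAlgebraic_zero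
    fun i _ => hA i i

theorem alg_mul {m n p : Type} [Fintype n] {A : Matrix m n ℂ} {C : Matrix n p ℂ} (hA : IsAlg A)
    (hC : IsAlg C) : IsAlg (A * C) := by
  intro i j
  rw [Matrix.mul_apply]
  exact Finset.sum_induction _ (IsAlgebraic ℚ) (fun a b ha hb => ha.add hb) isAlgebraic_zero
    fun k _ => (hA i k).mul (hC k j)

/-- An algebraic eigenvector of an algebraic matrix of trace zero. -/
theorem exists_eig (hB : Fintype.card B = 2) {z : Matrix B B ℂ} (hz : z ∈ sl ℂ B) (hz0 : z ≠ 0)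
    (hza : IsAlg z) : ∃ (l : ℂ) (v w : B → ℂ), v ≠ 0 ∧ (∀ a, IsAlgebraic ℚ (v a)) ∧
      z *ᵥ v = l • v ∧ v = (z + l • (1 : Matrix B B ℂ)) *ᵥ w ∧ l * l = -z.det := by
  obtain ⟨l, hl⟩ : ∃ l : ℂ, l * l = -z.det := by
    obtain ⟨l, hl⟩ := IsAlgClosed.exists_pow_nat_eq (-z.det) (n := 2) (by norm_num)
    exact ⟨l, by rw [← hl, pow_two]⟩
  have hdet : IsAlgebraic ℚ (z.det) := by
    have h1 := det_eq hB hz
    have h2 : z.det = (-2)⁻¹ * trace (z * z) := by
      rw [h1]
      field_simp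
    rw [h2]
    refine IsAlgebraic.mul ?_ (alg_trace (alg_mul hza hza))
    have h3 : ((-2 : ℂ))⁻¹ = algebraMap ℚ ℂ (-2)⁻¹ := by
      rw [map_inv₀, map_neg, map_ofNat]
    rw [h3]
    exact isAlgebraic_algebraMap _
  have hla : IsAlgebraic ℚ l := by
    have h1 : IsAlgebraic ℚ (l ^ 2) := by
      rw [pow_two, hl]
      exact hdet.neg
    exact h1.of_pow (by norm_num)
  set M := z + l • (1 : Matrix B B ℂ) with hM
  have hM0 : M ≠ 0 := by
    intro h
    have h1 := mem_sl.1 hz
    have h2 : trace M = 0 := by rw [h, trace_zero]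
    rw [hM, trace_add, h1, trace_smul, trace_one, hB, smul_eq_mul, zero_add] at h2
    have h3 : l = 0 := (mul_eq_zero.1 h2).resolve_right (by norm_num)
    rw [hM, h3, zero_smul, add_zero] at h
    exact hz0 h
  obtain ⟨a₀, b₀, hab₀⟩ : ∃ a b, M a b ≠ 0 := by
    by_contra hcon
    push Not at hcon
    exact hM0 (Matrix.ext hcon)
  refine ⟨l, M *ᵥ Pi.single b₀ 1, Pi.single b₀ 1, ?_, ?_, ?_, rfl, hl⟩
  · intro h
    have h1 := congrFun h a₀
    rw [Matrix.mulVec_single_one] at h1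
    exact hab₀ h1
  · intro a
    rw [Matrix.mulVec_single_one]
    exact isAlg_add hza (isAlg_scalar hla) a b₀
  · have h1 : z * M = l • M := by
      rw [hM, mul_add, ch0 hB hz, mul_smul_comm, mul_one, smul_add, smul_smul, hl, add_comm,
        neg_smul]
    rw [Matrix.mulVec_mulVec, h1, Matrix.smul_mulVec]

end aux

section fam

variable {J : Type} {B : J → Type} [∀ j, Fintype (B j)] [∀ j, DecidableEq (B j)]
  {P : ∀ j, Matrix (B j) (B j) ℂ} {ϖ : ℂ}

theorem full {i : J} (hi : IsEll ϖ (P i)) (hP : IsUnit (P i).det) :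
    ∀ y ∈ sl ℂ (B i), ∃ z ∈ LD P, z i = y := by
  classical
  have hB := hi.dim
  let U : Submodule ℂ (Matrix (B i) (B i) ℂ) := (LA P).map (LinearMap.proj i)
  let N : Submodule ℂ (Matrix (B i) (B i) ℂ) := U.map (tl ℂ (B i))
  have hN : ∀ {y}, y ∈ N ↔ ∃ x ∈ LA P, tl ℂ (B i) (x i) = y := by
    intro y
    constructor
    · rintro ⟨_, ⟨x, hx, rfl⟩, rfl⟩
      exact ⟨x, hx, rfl⟩
    · rintro ⟨x, hx, rfl⟩
      exact ⟨x i, ⟨x, hx, rfl⟩, rfl⟩
  have hNsl : N ≤ sl ℂ (B i) := by
    intro y hy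
    obtain ⟨x, _, rfl⟩ := hN.1 hy
    exact tl_sl hB _
  have hNgal : ∀ (σ : ℂ ≃+* ℂ), Fx σ → ∀ y ∈ N, y.map σ ∈ N := by
    intro σ hσ y hy
    obtain ⟨x, hx, rfl⟩ := hN.1 hy
    exact hN.2 ⟨FE.gal σ x, LA_gal hσ hx, (tl_map σ _).symm⟩
  have hNbr : ∀ a ∈ N, ∀ b ∈ N, ∃ z ∈ LD P, z i = a * b - b * a := by
    intro a ha b hb
    obtain ⟨x, hx, rfl⟩ := hN.1 ha
    obtain ⟨y, hy, rfl⟩ := hN.1 hb
    exact ⟨x * y - y * x, LD_brk' hx hy, (brk_tl _ _).symm⟩
  have hNbr' : ∀ a ∈ N, ∀ b ∈ N, a * b - b * a ∈ N := by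
    intro a ha b hb
    obtain ⟨z, hz, hzi⟩ := hNbr a ha b hb
    refine hN.2 ⟨z, LD_le hz, ?_⟩
    rw [hzi, tl_of_sl (brk_sl a b)]
  -- no algebraic common eigenvector
  have hno : ∀ v : B i → ℂ, v ≠ 0 → (∀ a, IsAlgebraic ℚ (v a)) →
      (∀ x ∈ N, ∃ μ : ℂ, x *ᵥ v = μ • v) → False := by
    intro v hv0 hva h
    obtain ⟨u, q, hu, hq⟩ := vec_alg hP v hv0 hva (by
      intro δ
      set D := (P i)⁻¹ * (P i).map δ with hD
      obtain ⟨μ, hμ⟩ := h _ (hN.2 ⟨_, dl_mem δ, rfl⟩)
      have h1 : D = tl ℂ (B i) D + (trace D * (2 : ℂ)⁻¹) • (1 : Matrix (B i) (B i) ℂ) := by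
        rw [tl_apply, smul_smul]
        abel
      refine ⟨μ + trace D * (2 : ℂ)⁻¹, ?_⟩
      conv_lhs => rw [h1]
      rw [Matrix.add_mulVec, hμ, Matrix.smul_mulVec, Matrix.one_mulVec, ← add_smul])
    exact hi.simple v hv0 hva u hu q hq
  have key : sl ℂ (B i) ≤ N := by
    by_contra hsl
    have hrank : finrank ℂ N ≤ 2 := by
      by_contra h2
      apply hsl
      have h3 := finrank_sl (F := ℂ) hB
      have h4 := Submodule.finrank_mono hNsl
      rw [Submodule.eq_of_le_of_finrank_eq hNsl (by omega)]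
    -- two elements which do not commute
    obtain ⟨s, hs, t, ht, hst⟩ : ∃ s ∈ N, ∃ t ∈ N, s * t - t * s ≠ 0 := by
      by_contra hcon
      push Not at hcon
      by_cases h0 : ∃ y ∈ N, y ≠ 0
      · obtain ⟨y, hy, hy0⟩ := h0
        obtain ⟨Z, hZ0, hZa, hZ⟩ := exists_alg N hNgal hy hy0
        obtain ⟨l, v, w, hv0, hva, hv, _, _⟩ := exists_eig hB (hNsl hZ) hZ0 hZa
        refine hno v hv0 hva fun x hx => ?_
        obtain ⟨r, rfl⟩ := centr hB (hNsl hZ) (hNsl hx) hZ0 (sub_eq_zero.1 (hcon _ hZ x hx))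
        exact ⟨r * l, by rw [Matrix.smul_mulVec, hv, smul_smul]⟩
      · push Not at h0
        obtain ⟨a, b, hab, _⟩ := exists_two hB
        refine hno (Pi.single a 1) ?_ ?_ ?_
        · intro h
          have h1 := congrFun h a
          rw [Pi.single_eq_same] at h1
          exact one_ne_zero h1
        · intro c
          by_cases hc : c = a
          · rw [hc, Pi.single_eq_same]
            exact isAlgebraic_one
          · rw [Pi.single_eq_of_ne hc]
            exact isAlgebraic_zero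
        · intro x hx
          exact ⟨0, by rw [h0 x hx, Matrix.zero_mulVec, zero_smul]⟩
    set c := s * t - t * s with hc
    have hcN : c ∈ N := hNbr' s hs t ht
    have hs0 : s ≠ 0 := by
      rintro rfl
      apply hst
      rw [hc, zero_mul, mul_zero, sub_zero]
    have hli : LinearIndependent ℂ ![s, t] := by
      rw [LinearIndependent.pair_iff' hs0]
      intro r hr
      apply hst
      rw [hc, ← hr, mul_smul_comm, smul_mul_assoc, sub_self]
    have hNspan : N ≤ Submodule.span ℂ {s, t} := by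
      have h1 : Submodule.span ℂ {s, t} ≤ N := by
        rw [Submodule.span_le]
        rintro z (rfl | rfl)
        · exact hs
        · exact ht
      have h2 : finrank ℂ (Submodule.span ℂ ({s, t} : Set (Matrix (B i) (B i) ℂ))) = 2 := by
        have h3 := finrank_span_eq_card hli
        rw [Fintype.card_fin, Matrix.range_cons, Matrix.range_cons, Matrix.range_empty,
          Set.union_empty, Set.singleton_union] at h3
        exact h3
      exact (Submodule.eq_of_le_of_finrank_le h1 (by rw [h2]; exact hrank)).ge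
    have hbr : ∀ x ∈ N, ∀ y ∈ N, ∃ r : ℂ, x * y - y * x = r • c := by
      intro x hx y hy
      obtain ⟨a, b, rfl⟩ := Submodule.mem_span_pair.1 (hNspan hx)
      obtain ⟨a', b', rfl⟩ := Submodule.mem_span_pair.1 (hNspan hy)
      refine ⟨a * b' - b * a', ?_⟩
      rw [hc]
      simp only [add_mul, mul_add, smul_mul_smul_comm, smul_sub, sub_smul, mul_comm a' a,
        mul_comm b' b, mul_comm a' b, mul_comm b' a]
      abel
    obtain ⟨z, hz0, hza, hz⟩ := exists_alg (Submodule.span ℂ {c}) (by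
      intro σ hσ v hv
      obtain ⟨r, rfl⟩ := Submodule.mem_span_singleton.1 hv
      obtain ⟨r', hr'⟩ := hbr _ (hNgal σ hσ s hs) _ (hNgal σ hσ t ht)
      have h1 : c.map σ = r' • c := by
        rw [← hr', hc]
        ext a b
        simp [Matrix.mul_apply, Matrix.map_apply, map_sum]
      have h2 : (r • c).map σ = σ r • c.map σ := by
        ext a b
        simp
      rw [h2, h1]
      exact Submodule.smul_mem _ _ (Submodule.smul_mem _ _ (Submodule.mem_span_singleton_self c)))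
      (Submodule.mem_span_singleton_self c) hst
    obtain ⟨r, hr⟩ := Submodule.mem_span_singleton.1 hz
    have hr0 : r ≠ 0 := by
      rintro rfl
      rw [zero_smul] at hr
      exact hz0 hr.symm
    have hzN : z ∈ N := by
      rw [← hr]
      exact Submodule.smul_mem _ _ hcN
    have hcz : c = r⁻¹ • z := by
      rw [← hr, smul_smul, inv_mul_cancel₀ hr0, one_smul]
    have hbrz : ∀ x ∈ N, ∃ l : ℂ, x * z - z * x = l • z := by
      intro x hx
      obtain ⟨l, hl⟩ := hbr x hx _ hzN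
      exact ⟨l * r⁻¹, by rw [hl, hcz, smul_smul]⟩
    obtain ⟨x, hx, hxz⟩ : ∃ x ∈ N, x * z - z * x ≠ 0 := by
      by_contra hcon
      push Not at hcon
      obtain ⟨p, hp⟩ := centr hB (hNsl hzN) (hNsl hs) hz0 (sub_eq_zero.1 (hcon s hs)).symm
      obtain ⟨q, hq⟩ := centr hB (hNsl hzN) (hNsl ht) hz0 (sub_eq_zero.1 (hcon t ht)).symm
      apply hst
      rw [hc, hp, hq, smul_mul_smul_comm, smul_mul_smul_comm, mul_comm p q, sub_self]
    obtain ⟨l, hl⟩ := hbrz x hx
    have hl0 : l ≠ 0 := by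
      rintro rfl
      rw [zero_smul] at hl
      exact hxz hl
    have htr : trace (z * z) = 0 := by
      have h1 : trace ((x * z - z * x) * z) = 0 := by
        rw [sub_mul, trace_sub, mul_assoc z x z, Matrix.trace_mul_comm z (x * z), sub_self]
      rw [hl, smul_mul_assoc, trace_smul, smul_eq_mul] at h1
      exact (mul_eq_zero.1 h1).resolve_left hl0
    have hdet : -z.det = 0 := by
      have h2 := htr
      rw [ch0 hB (hNsl hzN), trace_smul, trace_one, hB, smul_eq_mul] at h2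
      exact (mul_eq_zero.1 h2).resolve_right (by norm_num)
    have hzz : z * z = 0 := by
      rw [ch0 hB (hNsl hzN), hdet, zero_smul]
    obtain ⟨l', v, w, hv0, hva, hv, hvw, hl'⟩ := exists_eig hB (hNsl hzN) hz0 hza
    rw [hdet] at hl'
    have hl0' : l' = 0 := by
      rcases mul_eq_zero.1 hl' with h | h <;> exact h
    rw [hl0', zero_smul, add_zero] at hvw
    rw [hl0'] at hv
    refine hno v hv0 hva fun y hy => ?_
    obtain ⟨μ, hμ⟩ := hbrz y hy
    obtain ⟨q, hq⟩ := eigenline hB (hNsl hzN) hz0 hv0 hv (w := z *ᵥ (y *ᵥ w)) (by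
      rw [Matrix.mulVec_mulVec, hzz, Matrix.zero_mulVec, zero_smul])
    refine ⟨q + μ, ?_⟩
    have h3 : y * z = z * y + μ • z := by
      rw [← hμ]
      abel
    calc y *ᵥ v = (y * z) *ᵥ w := by rw [hvw, Matrix.mulVec_mulVec]
      _ = z *ᵥ (y *ᵥ w) + μ • v := by
        rw [h3, Matrix.add_mulVec, Matrix.mulVec_mulVec, Matrix.smul_mulVec, hvw]
      _ = (q + μ) • v := by rw [hq, add_smul]
  intro y hy
  obtain ⟨h, hh, e, he, f, hf, h1, h2, h3, _, hdec⟩ := std (F := ℂ) hB
  obtain ⟨p, q, r, rfl⟩ := hdec y hy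
  obtain ⟨z1, hz1, hz1'⟩ := hNbr e (key he) f (key hf)
  obtain ⟨z2, hz2, hz2'⟩ := hNbr h (key hh) e (key he)
  obtain ⟨z3, hz3, hz3'⟩ := hNbr h (key hh) f (key hf)
  refine ⟨p • z1 + (q * 2⁻¹) • z2 + (r * (-2)⁻¹) • z3, ?_, ?_⟩
  · exact Submodule.add_mem _ (Submodule.add_mem _ (Submodule.smul_mem _ _ hz1)
      (Submodule.smul_mem _ _ hz2)) (Submodule.smul_mem _ _ hz3)
  · rw [Pi.add_apply, Pi.add_apply, Pi.smul_apply, Pi.smul_apply, Pi.smul_apply, hz1', hz2', hz3',
      h3, h1, h2, smul_smul, smul_smul, mul_assoc, mul_assoc, inv_mul_cancel₀ two_ne_zero,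
      inv_mul_cancel₀ (neg_ne_zero.2 two_ne_zero), mul_one, mul_one]

end fam

end Pool.Agent.R919.TR
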