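import Mathlib
import Pool.Agent.R919.TR.Par

/-!
# The form
-/

set_option linter.unusedSectionVars false
set_option autoImplicit false

namespace Pool.Agent.R919.TR

open Matrix Module Pool.Agent.R919 Pool.Agent.R919.GT Pool.Agent.R919.DR

section form

variable {J : Type} {B : J → Type} [∀ j, Fintype (B j)]
  [∀ j, DecidableEq (B j)] {P : ∀ j, Matrix (B j) (B j) ℂ} {ϖ : ℂ}

/-- The form as seen by the Lie algebra. -/
theorem form_LA (hϖ : ϖ ≠ 0) (o : J) (hP : IsUnit (P o).det) (Q : Matrix (B o) (B o) ℂ) (hQa : IsAlg Q)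
    (R : Matrix (B o) (B o) ℂ) (hR : IsAlg R) (w : ℤ)
    (hQ : (P o)ᵀ * R * P o = ϖ ^ w • Q) {x : ∀ j, Matrix (B j) (B j) ℂ}
    (hx : x ∈ LA P) : ∃ s : ℂ, (x o)ᵀ * Q + Q * x o =
      s • Q := by
  set Q' := Q with hQ'
  let U : Submodule ℂ (∀ j, Matrix (B j) (B j) ℂ) :=
    { carrier := {x | ∃ s : ℂ, (x o)ᵀ * Q' + Q' * x o = s • Q'}
      zero_mem' := by
        refine ⟨0, ?_⟩
        change ((0 : Matrix (B o) (B o) ℂ))ᵀ * Q' + Q' * 0 = _
        rw [transpose_zero, zero_mul, mul_zero, add_zero, zero_smul]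
      add_mem' := by
        rintro a b ⟨s, hs⟩ ⟨t, ht⟩
        refine ⟨s + t, ?_⟩
        change (a o + b o)ᵀ * Q' + Q' * (a o + b o) = _
        rw [add_smul, ← hs, ← ht, transpose_add, add_mul, mul_add]
        abel
      smul_mem' := by
        rintro c a ⟨s, hs⟩
        refine ⟨c * s, ?_⟩
        change (c • a o)ᵀ * Q' + Q' * (c • a o) = _
        rw [mul_smul, ← hs, transpose_smul, smul_mul_assoc, mul_smul_comm, smul_add] }
  have h : LA P ≤ U := by
    refine LA_le ?_ ?_
    · rintro _ ⟨σ, δ, hσ, rfl⟩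
      set D := (P o)⁻¹ * (P o).map δ with hD
      have h1 : (P o).map δ = P o * D := by
        rw [hD, ← Matrix.mul_assoc, Matrix.mul_nonsing_inv _ hP, Matrix.one_mul]
      have h2 : Dᵀ * Q' + Q' * D = (w * (δ ϖ / ϖ)) • Q' := by
        have h3 := congrArg (fun A : Matrix (B o) (B o) ℂ => A.map δ) hQ
        simp only [map_mul_der] at h3
        have h4 : R.map δ = 0 := by
          ext a b
          exact Pool.Agent.TH119.DR.deriv_alg δ (hR a b)
        have h5 : ((P o)ᵀ).map δ = ((P o).map δ)ᵀ := rfl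
        have h6 : (ϖ ^ w • Q').map δ = (ϖ ^ w * (w * (δ ϖ / ϖ))) • Q' := by
          ext a b
          rw [Matrix.map_apply, Matrix.smul_apply, Matrix.smul_apply, smul_eq_mul, smul_eq_mul,
            Derivation.leibniz, Derivation.leibniz_zpow]
          have h7 : δ (Q' a b) = 0 := Pool.Agent.TH119.DR.deriv_alg δ (hQa a b)
          rw [h7, smul_zero, zero_add]
          simp only [smul_eq_mul, zsmul_eq_mul]
          rw [zpow_sub_one₀ hϖ]
          field_simp
        rw [h4, Matrix.mul_zero, add_zero, h5, h1, h6, transpose_mul] at h3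
        have h7 : Dᵀ * (P o)ᵀ * R * P o + (P o)ᵀ * R * (P o * D) = ϖ ^ w • (Dᵀ * Q' + Q' * D) := by
          calc Dᵀ * (P o)ᵀ * R * P o + (P o)ᵀ * R * (P o * D) =
              Dᵀ * ((P o)ᵀ * R * P o) + ((P o)ᵀ * R * P o) * D := by
                simp only [Matrix.mul_assoc]
            _ = ϖ ^ w • (Dᵀ * Q' + Q' * D) := by
              rw [hQ, mul_smul_comm, smul_mul_assoc, smul_add]
        rw [h7, mul_smul] at h3
        have h8 : ϖ ^ w ≠ 0 := zpow_ne_zero _ hϖ
        exact smul_right_injective _ h8 h3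
      refine ⟨σ (w * (δ ϖ / ϖ)), ?_⟩
      change (D.map σ)ᵀ * Q' + Q' * D.map σ = _
      have h3 : ∀ a b, σ (Q' a b) = Q' a b := fun a b => hσ _ (hQa a b)
      ext a b
      have h4 := congrArg σ (congrFun (congrFun h2 a) b)
      rw [Matrix.add_apply, map_add, Matrix.mul_apply, Matrix.mul_apply, map_sum, map_sum,
        Matrix.smul_apply, smul_eq_mul, map_mul] at h4
      rw [Matrix.add_apply, Matrix.mul_apply, Matrix.mul_apply, Matrix.smul_apply, smul_eq_mul]
      refine Eq.trans ?_ (h4.trans ?_)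
      · congr 1
        · refine Finset.sum_congr rfl fun c _ => ?_
          rw [map_mul, h3]
          rfl
        · refine Finset.sum_congr rfl fun c _ => ?_
          rw [map_mul, h3]
          rfl
      · rw [h3]
    · rintro a ⟨s, hs⟩ b ⟨t, ht⟩
      refine ⟨0, ?_⟩
      change (a o * b o - b o * a o)ᵀ * Q' + Q' * (a o * b o - b o * a o) = _
      have ha : (a o)ᵀ * Q' = s • Q' - Q' * a o := by
        rw [← hs]
        abel
      have hb : (b o)ᵀ * Q' = t • Q' - Q' * b o := by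
        rw [← ht]
        abel
      have e1 : (b o)ᵀ * (a o)ᵀ * Q' = s • (t • Q' - Q' * b o) - (t • Q' - Q' * b o) * a o := by
        rw [mul_assoc, ha, mul_sub, mul_smul_comm, hb, ← mul_assoc, hb]
      have e2 : (a o)ᵀ * (b o)ᵀ * Q' = t • (s • Q' - Q' * a o) - (s • Q' - Q' * a o) * b o := by
        rw [mul_assoc, hb, mul_sub, mul_smul_comm, ha, ← mul_assoc, ha]
      rw [transpose_sub, transpose_mul, transpose_mul, sub_mul, e1, e2, zero_smul]
      simp only [smul_sub, sub_mul, smul_mul_assoc, mul_sub]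
      rw [smul_comm s t Q', ← mul_assoc Q', ← mul_assoc Q']
      abel
  exact h hx

theorem form_LD (hϖ : ϖ ≠ 0) (o : J) (hP : IsUnit (P o).det) (Q : Matrix (B o) (B o) ℂ) (hQa : IsAlg Q)
    (R : Matrix (B o) (B o) ℂ) (hR : IsAlg R) (w : ℤ)
    (hQ : (P o)ᵀ * R * P o = ϖ ^ w • Q) :
    ∀ x ∈ LD P, (x o)ᵀ * Q + Q * x o = 0 := by
  intro x hx
  set Q' := Q with hQ'
  let U : Submodule ℂ (∀ j, Matrix (B j) (B j) ℂ) :=
    { carrier := {x | (x o)ᵀ * Q' + Q' * x o = 0}
      zero_mem' := by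
        change ((0 : Matrix (B o) (B o) ℂ))ᵀ * Q' + Q' * 0 = _
        rw [transpose_zero, zero_mul, mul_zero, add_zero]
      add_mem' := by
        intro a b ha hb
        change (a o + b o)ᵀ * Q' + Q' * (a o + b o) = _
        have ha' : (a o)ᵀ * Q' + Q' * a o = 0 := ha
        have hb' : (b o)ᵀ * Q' + Q' * b o = 0 := hb
        rw [transpose_add, add_mul, mul_add]
        calc (a o)ᵀ * Q' + (b o)ᵀ * Q' + (Q' * a o + Q' * b o) =
            ((a o)ᵀ * Q' + Q' * a o) + ((b o)ᵀ * Q' + Q' * b o) := by abel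
          _ = 0 := by rw [ha', hb', add_zero]
      smul_mem' := by
        intro c a ha
        change (c • a o)ᵀ * Q' + Q' * (c • a o) = _
        have ha' : (a o)ᵀ * Q' + Q' * a o = 0 := ha
        rw [transpose_smul, smul_mul_assoc, mul_smul_comm, ← smul_add, ha', smul_zero] }
  have h : LD P ≤ U := by
    rw [LD, Submodule.span_le]
    rintro _ ⟨a, ha, b, hb, rfl⟩
    obtain ⟨s, hs⟩ := form_LA hϖ o hP Q hQa R hR w hQ ha
    obtain ⟨t, ht⟩ := form_LA hϖ o hP Q hQa R hR w hQ hb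
    change (a o * b o - b o * a o)ᵀ * Q' + Q' * (a o * b o - b o * a o) = _
    have ha : (a o)ᵀ * Q' = s • Q' - Q' * a o := by
      rw [← hs]
      abel
    have hb : (b o)ᵀ * Q' = t • Q' - Q' * b o := by
      rw [← ht]
      abel
    have e1 : (b o)ᵀ * (a o)ᵀ * Q' = s • (t • Q' - Q' * b o) - (t • Q' - Q' * b o) * a o := by
      rw [mul_assoc, ha, mul_sub, mul_smul_comm, hb, ← mul_assoc, hb]
    have e2 : (a o)ᵀ * (b o)ᵀ * Q' = t • (s • Q' - Q' * a o) - (s • Q' - Q' * a o) * b o := by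
      rw [mul_assoc, hb, mul_sub, mul_smul_comm, ha, ← mul_assoc, ha]
    rw [transpose_sub, transpose_mul, transpose_mul, sub_mul, e1, e2]
    simp only [smul_sub, sub_mul, smul_mul_assoc, mul_sub]
    rw [smul_comm s t Q', ← mul_assoc Q', ← mul_assoc Q']
    abel
  exact h hx

end form

end Pool.Agent.R919.TR
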