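import Mathlib
import Pool.Agent.R919.TR.Big
import Pool.Agent.R919.TR.Frm

/-!
# The subtorsors which contain the period matrix of a sum
-/

set_option linter.unusedSectionVars false
set_option autoImplicit false

open Matrix MvPolynomial

namespace Pool.Agent.R919.TR

open Pool.Agent.TH127.PT Pool.Agent.Y123.ST Pool.Agent.R919 Pool.Agent.R919.GT Pool.Agent.R919.DR

section lie

/-- A derivation over the algebraic numbers. -/
noncomputable def toQb (δ : Derivation ℚ ℂ ℂ) : Derivation Qb ℂ ℂ where
  toFun := δ
  map_add' := map_add δ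
  map_smul' := by
    intro r z
    change δ ((r : ℂ) * z) = (r : ℂ) * δ z
    rw [Derivation.leibniz, Pool.Agent.TH119.DR.deriv_alg δ (mem_Qb.1 r.2), smul_zero, add_zero]
    rfl
  map_one_eq_zero' := Derivation.map_one_eq_zero δ
  leibniz' := fun a b => Derivation.leibniz δ a b

variable {J : Type} {B : J → Type} [∀ j, Fintype (B j)] [∀ j, DecidableEq (B j)]
  {ι : Type} [Fintype ι] [DecidableEq ι] (o : J) (f : ι → J)

/-- The element of the family as a block diagonal matrix. -/
noncomputable def bl (x : ∀ j, Matrix (B j) (B j) ℂ) :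
    Matrix (B o ⊕ Σ i : ι, B (f i)) (B o ⊕ Σ i : ι, B (f i)) ℂ :=
  blocks (C := fun i => B (f i)) (x o) (fun i => x (f i))

variable {o f} {c : ∀ j, Matrix (B j) (B j) ℂ}

theorem der_inv {D : Type} [Fintype D] [DecidableEq D] {c : Matrix D D ℂ} (hc : IsUnit c.det)
    (δ : Derivation ℚ ℂ ℂ) : (c⁻¹)⁻¹ * (c⁻¹).map δ = -(c.map δ * c⁻¹) := by
  have h1 : (c * c⁻¹).map δ = 0 := by
    rw [Matrix.mul_nonsing_inv _ hc]
    refine map_alg δ fun a b => ?_
    by_cases h : a = b
    · rw [h, Matrix.one_apply_eq]
      exact isAlgebraic_one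
    · rw [Matrix.one_apply_ne h]
      exact isAlgebraic_zero
  rw [map_mul_der] at h1
  rw [Matrix.nonsing_inv_nonsing_inv _ hc]
  exact eq_neg_of_add_eq_zero_right h1

/-- The Lie algebra of a subtorsor over the algebraic numbers which contains the period matrix. -/
theorem LA_sub (hc : ∀ j, IsUnit (c j).det)
    {T : Set (Matrix (B o ⊕ Σ i : ι, B (f i)) (B o ⊕ Σ i : ι, B (f i)) ℂ)}
    (hT : IsSubtorsor Qb T) (hcT : bl o f c ∈ T) {x : ∀ j, Matrix (B j) (B j) ℂ}
    (hx : x ∈ LA (fun j => (c j)⁻¹)) : fl (bl o f x) ∈ LL T := by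
  let U : Submodule ℂ (∀ j, Matrix (B j) (B j) ℂ) :=
    { carrier := {x | fl (bl o f x) ∈ LL T}
      zero_mem' := by
        change fl (blocks (C := fun i => B (f i)) 0 (fun i => 0)) ∈ LL T
        rw [blocks_zero, fl_zero]
        exact Submodule.zero_mem _
      add_mem' := by
        intro a b ha hb
        change fl (blocks (C := fun i => B (f i)) (a o + b o) (fun i => a (f i) + b (f i))) ∈ LL T
        rw [blocks_add, fl_add]
        exact Submodule.add_mem _ ha hb
      smul_mem' := by
        intro r a ha
        change fl (blocks (C := fun i => B (f i)) (r • a o) (fun i => r • a (f i))) ∈ LL T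
        rw [blocks_smul, fl_smul]
        exact Submodule.smul_mem _ _ ha }
  have h : LA (fun j => (c j)⁻¹) ≤ U := by
    refine LA_le ?_ ?_
    · rintro _ ⟨σ, δ, hσ, rfl⟩
      have h1 := logder_mem hT (toQb δ) hcT
      have hu : ∀ j, IsUnit (c j) := fun j => (Matrix.isUnit_iff_isUnit_det _).2 (hc j)
      have h2 : (bl o f c).map (toQb δ) * (bl o f c)⁻¹ =
          bl o f (fun j => (c j).map δ * (c j)⁻¹) := by
        have h3 : (bl o f c).map (toQb δ) = (bl o f c).map δ := rfl
        rw [h3]
        unfold bl
        rw [blocks_map _ (map_zero δ), blocks_inv (hu o) (fun i => hu (f i)), blocks_mul]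
      rw [h2] at h1
      have h3 : fl (bl o f (fun j => ((c j)⁻¹)⁻¹ * ((c j)⁻¹).map δ)) ∈ LL T := by
        have h4 : (fun j => ((c j)⁻¹)⁻¹ * ((c j)⁻¹).map δ) =
            fun j => (-1 : ℂ) • ((c j).map δ * (c j)⁻¹) := by
          funext j
          rw [der_inv (hc j), neg_one_smul]
        rw [h4]
        unfold bl
        rw [blocks_smul, fl_smul]
        exact Submodule.smul_mem _ _ h1
      have h4 := LL_aut hT σ (fun x hx => hσ x (mem_Qb.1 hx)) _ h3
      change fl (bl o f (FE.gal σ _)) ∈ LL T
      have h5 : (fun i => σ (fl (bl o f (fun j => ((c j)⁻¹)⁻¹ * ((c j)⁻¹).map δ)) i)) =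
          fl (bl o f (FE.gal σ (fun j => ((c j)⁻¹)⁻¹ * ((c j)⁻¹).map δ))) := by
        have h6 := blocks_map (C := fun i => B (f i)) σ (map_zero σ)
          (((c o)⁻¹)⁻¹ * ((c o)⁻¹).map δ) (fun i => ((c (f i))⁻¹)⁻¹ * ((c (f i))⁻¹).map δ)
        exact congrArg fl h6
      rw [← h5]
      exact h4
    · intro a ha b hb
      have h1 := Pool.Agent.R919.TR.LL_brk (T := T) (v := bl o f a) (w := bl o f b) ha hb
      have h2 : bl o f a * bl o f b - bl o f b * bl o f a = bl o f (a * b - b * a) := by
        unfold bl
        rw [blocks_mul, blocks_mul, ← blocks_sub]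
        rfl
      rw [h2] at h1
      exact h1
  exact h hx

end lie

section sl2

variable {D : Type} [Fintype D] [DecidableEq D]

/-- The matrices of size two and determinant one are products of unipotent matrices. -/
theorem gen_sl2 (hD : Fintype.card D = 2) (H : Matrix D D ℂ → Prop)
    (hmul : ∀ g g', H g → H g' → H (g * g'))
    (hE : ∀ a b, a ≠ b → ∀ s : ℂ, H (1 + s • Matrix.single a b 1)) {g : Matrix D D ℂ}
    (hg : g.det = 1) : H g := by
  obtain ⟨a, b, hab, hall⟩ := exists_two hD
  have hba := hab.symm
  have hdet : ∀ M : Matrix D D ℂ, M.det = M a a * M b b - M a b * M b a := by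
    intro M
    let e2 : Fin 2 ≃ D :=
      { toFun := ![a, b]
        invFun := fun c => if c = a then 0 else 1
        left_inv := by
          intro i
          fin_cases i
          · simp
          · simp [hba]
        right_inv := by
          intro c
          rcases hall c with rfl | rfl
          · simp
          · simp [hba] }
    rw [← Matrix.det_submatrix_equiv_self e2 M, Matrix.det_fin_two]
    rfl
  have key : ∀ M : Matrix D D ℂ, M.det = 1 → M b a ≠ 0 → H M := by
    intro M hM hne
    have h1 := hdet M
    rw [hM] at h1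
    have h2 : M = (1 + ((M a a - 1) / M b a) • Matrix.single a b 1) *
        (1 + (M b a) • Matrix.single b a 1) * (1 + ((M b b - 1) / M b a) • Matrix.single a b 1) := by
      ext i j
      rcases hall i with rfl | rfl <;> rcases hall j with rfl | rfl
      · simp [Matrix.mul_apply, sum_two hab hall, hab, hba, Matrix.one_apply]
        field_simp
        ring
      · simp [Matrix.mul_apply, sum_two hab hall, hab, hba, Matrix.one_apply]
        field_simp
        linear_combination h1
      · simp [Matrix.mul_apply, sum_two hab hall, hab, hba, Matrix.one_apply]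
      · simp [Matrix.mul_apply, sum_two hab hall, hab, hba, Matrix.one_apply]
        field_simp
        ring
    rw [h2]
    exact hmul _ _ (hmul _ _ (hE a b hab _) (hE b a hba _)) (hE a b hab _)
  by_cases h : g b a = 0
  · have h1 := hdet g
    rw [hg, h, mul_zero, sub_zero] at h1
    have hbb : g b b ≠ 0 := by
      intro h0
      rw [h0, mul_zero] at h1
      exact one_ne_zero h1
    have h2 : g = (g * (1 + (1 : ℂ) • Matrix.single b a 1)) * (1 + (-1 : ℂ) • Matrix.single b a 1) := by
      rw [Matrix.mul_assoc]
      have h3 : (1 + (1 : ℂ) • Matrix.single b a 1) * (1 + (-1 : ℂ) • Matrix.single b a (1 : ℂ)) =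
          (1 : Matrix D D ℂ) := by
        have hEE : Matrix.single b a (1 : ℂ) * Matrix.single b a (1 : ℂ) = 0 :=
          Matrix.single_mul_single_of_ne _ _ _ _ hab _
        rw [one_smul, neg_one_smul]
        calc (1 + Matrix.single b a (1 : ℂ)) * (1 + -Matrix.single b a (1 : ℂ)) =
            1 - Matrix.single b a (1 : ℂ) * Matrix.single b a (1 : ℂ) := by noncomm_ring
          _ = 1 := by rw [hEE, sub_zero]
      rw [h3, Matrix.mul_one]
    rw [h2]
    refine hmul _ _ (key _ ?_ ?_) (hE b a hba _)
    · rw [Matrix.det_mul, hg, hdet (1 + (1 : ℂ) • Matrix.single b a 1)]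
      simp [hab, hba]
    · simp [Matrix.mul_apply, sum_two hab hall, hba, Matrix.one_apply, h, hbb]
  · exact key g hg h

end sl2

section stab

variable {A ι : Type} [Fintype A] [DecidableEq A] [Fintype ι] [DecidableEq ι] {C : ι → Type}
  [∀ j, Fintype (C j)] [∀ j, DecidableEq (C j)] {K : Subfield ℂ}

/-- If the Lie algebra contains the matrices of trace zero of the blocks, the subtorsor is stable
under the special linear groups of the blocks. -/
theorem stab (hC : ∀ j, Fintype.card (C j) = 2) {T : Set (Matrix (A ⊕ Σ j, C j) (A ⊕ Σ j, C j) ℂ)}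
    (hT : IsSubtorsor K T)
    (hE : ∀ (j : ι) (a b : C j), a ≠ b →
      fl (blocks (0 : Matrix A A ℂ) (Pi.single j (Matrix.single a b (1 : ℂ)))) ∈ LL T)
    (g : ∀ j, Matrix (C j) (C j) ℂ) (hg : ∀ j, (g j).det = 1) :
    ∀ x ∈ T, blocks 1 g * x ∈ T := by
  have h1 : ∀ (j : ι) (M : Matrix (C j) (C j) ℂ), M.det = 1 →
      ∀ x ∈ T, blocks 1 (Function.update (fun i => (1 : Matrix (C i) (C i) ℂ)) j M) * x ∈ T := by
    intro j M hM
    refine gen_sl2 (hC j) (fun M => ∀ x ∈ T,
      blocks 1 (Function.update (fun i => (1 : Matrix (C i) (C i) ℂ)) j M) * x ∈ T) ?_ ?_ hM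
    · intro M M' h h' x hx
      have h2 := h _ (h' x hx)
      rw [← Matrix.mul_assoc, blocks_mul, Matrix.one_mul] at h2
      have h3 : (fun i => Function.update (fun i => (1 : Matrix (C i) (C i) ℂ)) j M i *
          Function.update (fun i => (1 : Matrix (C i) (C i) ℂ)) j M' i) =
          Function.update (fun i => (1 : Matrix (C i) (C i) ℂ)) j (M * M') := by
        funext i
        by_cases hi : i = j
        · subst hi
          rw [Function.update_self, Function.update_self, Function.update_self]
        · rw [Function.update_of_ne hi, Function.update_of_ne hi, Function.update_of_ne hi,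
            Matrix.one_mul]
      rw [h3] at h2
      exact h2
    · intro a b hab s x hx
      have h2 := exp_nil hT (E := blocks (0 : Matrix A A ℂ)
        (Pi.single j (Matrix.single a b (1 : ℂ)))) (x := x) (by
          rw [blocks_mul, Matrix.mul_zero]
          have h3 : (fun i => (Pi.single j (Matrix.single a b (1 : ℂ)) :
              ∀ i, Matrix (C i) (C i) ℂ) i * (Pi.single j (Matrix.single a b (1 : ℂ)) :
              ∀ i, Matrix (C i) (C i) ℂ) i) = fun i => 0 := by
            funext i
            by_cases hi : i = j
            · subst hi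
              rw [Pi.single_eq_same, Matrix.single_mul_single_of_ne _ _ _ _ hab.symm]
            · rw [Pi.single_eq_of_ne hi, Matrix.mul_zero]
          rw [h3, blocks_zero]) (hE j a b hab) hx s
      have h3 : (1 + s • blocks (0 : Matrix A A ℂ) (Pi.single j (Matrix.single a b (1 : ℂ)))) =
          blocks 1 (Function.update (fun i => (1 : Matrix (C i) (C i) ℂ)) j
            (1 + s • Matrix.single a b 1)) := by
        rw [← blocks_smul, ← blocks_one, ← blocks_add, smul_zero, add_zero]
        congr 1
        funext i
        by_cases hi : i = j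
        · subst hi
          rw [Pi.single_eq_same, Function.update_self]
        · rw [Pi.single_eq_of_ne hi, Function.update_of_ne hi, smul_zero, add_zero]
      rw [h3] at h2
      exact h2
  have h2 : ∀ s : Finset ι, ∀ x ∈ T,
      blocks 1 (fun i => if i ∈ s then g i else 1) * x ∈ T := by
    intro s
    induction s using Finset.induction_on with
    | empty =>
      intro x hx
      simp only [Finset.notMem_empty, if_false]
      rw [blocks_one, Matrix.one_mul]
      exact hx
    | insert j s hj ih =>
      intro x hx
      have h3 := h1 j (g j) (hg j) _ (ih x hx)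
      rw [← Matrix.mul_assoc, blocks_mul, Matrix.one_mul] at h3
      have h4 : (fun i => Function.update (fun i => (1 : Matrix (C i) (C i) ℂ)) j (g j) i *
          (if i ∈ s then g i else 1)) = fun i => if i ∈ insert j s then g i else 1 := by
        funext i
        by_cases hi : i = j
        · subst hi
          rw [Function.update_self, if_neg hj, Matrix.mul_one,
            if_pos (Finset.mem_insert_self _ _)]
        · rw [Function.update_of_ne hi, Matrix.one_mul]
          by_cases his : i ∈ s
          · rw [if_pos his, if_pos (Finset.mem_insert_of_mem his)]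
          · rw [if_neg his, if_neg fun h => (Finset.mem_insert.1 h).elim hi his]
      rw [h4] at h3
      exact h3
  intro x hx
  have h3 := h2 Finset.univ x hx
  simpa using h3

end stab

end Pool.Agent.R919.TR
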