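import Mathlib
import Pool.Agent.R919.TR.Tor

/-!
# The smallest subtorsor of a sum of an object and elliptic curves
-/

set_option linter.unusedSectionVars false
set_option autoImplicit false

open Matrix MvPolynomial

namespace Pool.Agent.R919.TR

open Pool.Agent.TH127.PT Pool.Agent.Y123.ST Pool.Agent.R919 Pool.Agent.R919.GT Pool.Agent.R919.DR

section

variable {D D' : Type} [Fintype D] [DecidableEq D] [Fintype D'] [DecidableEq D']

theorem isEll_inv {ϖ : ℂ} {c : Matrix D D ℂ} (h : IsEll ϖ c) (hc : IsUnit c.det) :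
    IsEll ϖ⁻¹ c⁻¹ := by
  refine ⟨h.dim, ?_, ?_⟩
  · obtain ⟨a, ha0, ha, hdet⟩ := h.det
    refine ⟨a⁻¹, inv_ne_zero ha0, ha.inv, ?_⟩
    rw [Matrix.det_nonsing_inv, hdet, Ring.inverse_eq_inv', mul_inv]
  · intro v hv hva u hu r hr
    have h1 : c *ᵥ (r • u) = v := by
      rw [← hr, Matrix.mulVec_mulVec, Matrix.mul_nonsing_inv _ hc, Matrix.one_mulVec]
    have hr0 : r ≠ 0 := by
      rintro rfl
      rw [zero_smul, Matrix.mulVec_zero] at h1
      exact hv h1.symm
    have hu0 : u ≠ 0 := by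
      rintro rfl
      rw [smul_zero, Matrix.mulVec_zero] at h1
      exact hv h1.symm
    refine h.simple u hu0 hu v hva r⁻¹ ?_
    rw [← h1, Matrix.mulVec_smul, smul_smul, inv_mul_cancel₀ hr0, one_smul]

theorem noHm_inv {c : Matrix D D ℂ} {c' : Matrix D' D' ℂ} (h : NoHm c c') (hc : IsUnit c.det)
    (hc' : IsUnit c'.det) : NoHm c⁻¹ c'⁻¹ := by
  intro Z hZ hZ'
  have h1 : c' * (c'⁻¹ * Z * (c⁻¹)⁻¹) * c⁻¹ = Z := by
    rw [Matrix.nonsing_inv_nonsing_inv _ hc, ← Matrix.mul_assoc, ← Matrix.mul_assoc,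
      Matrix.mul_nonsing_inv _ hc', Matrix.one_mul, Matrix.mul_assoc,
      Matrix.mul_nonsing_inv _ hc, Matrix.mul_one]
  have h2 := h _ hZ' (by rw [h1]; exact hZ)
  rw [← h1, h2, Matrix.mul_zero, Matrix.zero_mul]

end

variable {J : Type} [DecidableEq J] {B : J → Type} [∀ j, Fintype (B j)] [∀ j, DecidableEq (B j)]

/-- **The main theorem.** -/
theorem main {ϖ : ℂ} (hϖ : ϖ ≠ 0) (c : ∀ j, Matrix (B j) (B j) ℂ) (hc : ∀ j, IsUnit (c j).det)
    (o : J) (Q R : Matrix (B o) (B o) ℂ) (hQa : IsAlg Q) (hQu : Q.det ≠ 0) (hR : IsAlg R) (w : ℤ)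
    (hQ : (c o)ᵀ * Q * c o = ϖ ^ w • R) (h1 : ∀ j, j ≠ o → IsEll ϖ (c j))
    (h2 : ∀ i j, i ≠ o → j ≠ o → i ≠ j → NoHm (c i) (c j)) :
    ∃ S : Finset J, o ∉ S ∧ 2 * S.card ≤ Fintype.card (B o) ∧
      ∀ (ι : Type) [Fintype ι] [DecidableEq ι] (f : ι → J), Function.Injective f →
        (∀ i, f i ≠ o) → (∀ i, f i ∉ S) → ∀ K : Subfield ℂ, (∀ x ∈ K, IsAlgebraic ℚ x) →
          Omega K (blocks (c o) fun i => c (f i)) = {X | ∃ y x, X = blocks y x ∧
            blocks y (dets x) ∈ Omega K (blocks (c o) (dets fun i => c (f i)))} := by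
  set P : ∀ j, Matrix (B j) (B j) ℂ := fun j => (c j)⁻¹ with hPdef
  have hP : ∀ j, IsUnit (P j).det := fun j => (Matrix.isUnit_nonsing_inv_det_iff).2 (hc j)
  have hell : ∀ j, j ≠ o → IsEll ϖ⁻¹ (P j) := fun j hj => isEll_inv (h1 j hj) (hc j)
  have hform : (P o)ᵀ * R * P o = (ϖ⁻¹) ^ w • Q := by
    have h3 : R = (ϖ⁻¹) ^ w • ((c o)ᵀ * Q * c o) := by
      rw [hQ, smul_smul, ← mul_zpow, inv_mul_cancel₀ hϖ, _root_.one_zpow, one_smul]
    have h4 : ((c o)⁻¹)ᵀ * (c o)ᵀ = 1 := by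
      rw [← Matrix.transpose_mul, Matrix.mul_nonsing_inv _ (hc o), Matrix.transpose_one]
    rw [h3, Matrix.mul_smul, Matrix.smul_mul]
    congr 1
    change ((c o)⁻¹)ᵀ * ((c o)ᵀ * Q * c o) * (c o)⁻¹ = Q
    rw [← Matrix.mul_assoc, ← Matrix.mul_assoc, h4, Matrix.one_mul, Matrix.mul_assoc,
      Matrix.mul_nonsing_inv _ (hc o), Matrix.mul_one]
  have hpair : ∀ i t, i ≠ o → t ≠ o → i ≠ t → ∃ x ∈ LD P, x t = 0 ∧ x i ≠ 0 :=
    fun i t hi ht hit => pair (hell i hi) (hell t ht) (hP i) (hP t)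
      (noHm_inv (h2 t i ht hi (Ne.symm hit)) (hc t) (hc i))
  obtain ⟨S, hS1, hS2, _, hS3⟩ := exists_finset_gen (M := LD P) LD_brk o
    ((Matrix.isUnit_iff_isUnit_det Q).2 (isUnit_iff_ne_zero.2 hQu))
    (form_LD (inv_ne_zero hϖ) o (hP o) Q hQa R hR w hform) (fun i hi => (hell i hi).dim)
    (fun i _ => LD_sl i) (fun i hi => full (hell i hi) (hP i)) hpair
  refine ⟨S, hS1, hS2, fun ι _ _ f hf hfo hfS K hK => ?_⟩
  have hKQ : K ≤ Qb := fun x hx => mem_Qb.2 (hK x hx)
  have hu : ∀ j, IsUnit (c j) := fun j => (Matrix.isUnit_iff_isUnit_det _).2 (hc j)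
  -- stability
  have hstab : ∀ T : Set (Matrix (B o ⊕ Σ i : ι, B (f i)) (B o ⊕ Σ i : ι, B (f i)) ℂ),
      IsSubtorsor K T → blocks (c o) (fun i => c (f i)) ∈ T →
      ∀ g : ∀ i, Matrix (B (f i)) (B (f i)) ℂ, (∀ i, (g i).det = 1) →
        ∀ x ∈ T, blocks 1 g * x ∈ T := by
    intro T hT hcT
    refine stab (fun i => (hell (f i) (hfo i)).dim) hT fun i a b hab => ?_
    obtain ⟨z, hz, hzi, hzt⟩ := conc_gen LD_brk (hell (f i) (hfo i)).dim (LD_sl (f i))
      (full (hell (f i) (hfo i)) (hP (f i))) (insert o ((Finset.univ.image f).erase (f i)))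
      (fun t ht => by
        rcases Finset.mem_insert.1 ht with rfl | ht
        · exact hS3 (f i) (hfo i) (hfS i)
        · obtain ⟨hti, ht⟩ := Finset.mem_erase.1 ht
          obtain ⟨k, _, rfl⟩ := Finset.mem_image.1 ht
          exact hpair (f i) (f k) (hfo i) (hfo k) (Ne.symm hti))
      (Matrix.single a b (1 : ℂ)) (by rw [mem_sl, Matrix.trace_single_eq_of_ne _ _ _ hab])
    have h3 := LA_sub (f := f) hc (sub_mono hKQ hT) hcT (LD_le hz)
    have h4 : bl o f z = blocks 0 (Pi.single i (Matrix.single a b (1 : ℂ))) := by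
      unfold bl
      rw [hzt o (Finset.mem_insert_self _ _)]
      congr 1
      funext k
      by_cases hk : k = i
      · subst hk
        rw [Pi.single_eq_same, hzi]
      · rw [Pi.single_eq_of_ne hk]
        exact hzt _ (Finset.mem_insert_of_mem (Finset.mem_erase.2
          ⟨fun h => hk (hf h), Finset.mem_image_of_mem f (Finset.mem_univ k)⟩))
    rw [h4] at h3
    exact h3
  -- the base points
  have he : ∀ i : ι, Nonempty (B (f i)) := fun i => by
    have h3 := (hell (f i) (hfo i)).dim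
    exact Fintype.card_pos_iff.1 (by omega)
  let e : ∀ i : ι, B (f i) := fun i => (he i).some
  ext X
  constructor
  · intro hX
    obtain ⟨y, x, _, _, rfl⟩ := mem_blk.1 (hX _ (blk_sub K _)
      (mem_blk.2 ⟨c o, fun i => c (f i), hu o, fun i => hu (f i), rfl⟩))
    refine ⟨y, x, rfl, fun T hT hcT => ?_⟩
    have h3 := (hX _ (sub_phi (C := fun i => B (f i)) hT)
      ⟨mem_blk.2 ⟨c o, fun i => c (f i), hu o, fun i => hu (f i), rfl⟩, by
        rw [phi_blocks]
        exact hcT⟩).2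
    rwa [phi_blocks] at h3
  · rintro ⟨y, x, rfl, hX⟩ T hT hcT
    have hst := hstab T hT hcT
    have h3 := hX _ (sub_psi e hT) ⟨mem_blk.2 ⟨c o, dets fun i => c (f i), hu o,
      dets_unit fun i => hu (f i), rfl⟩, by
        rw [psi_blocks]
        have h4 := hst (fun i => dia (e i) (c (f i)).det * (c (f i))⁻¹) (fun i => by
          rw [Matrix.det_mul, det_dia, Matrix.det_nonsing_inv]
          exact Ring.mul_inverse_cancel _ (hc (f i))) _ hcT
        rw [blocks_mul, Matrix.one_mul] at h4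
        have h5 : (fun i => dia (e i) (c (f i)).det * (c (f i))⁻¹ * c (f i)) =
            fun i => dia (e i) (c (f i)).det := by
          funext i
          rw [Matrix.mul_assoc, Matrix.nonsing_inv_mul _ (hc (f i)), Matrix.mul_one]
        rw [h5] at h4
        exact h4⟩
    have h6 := (blocks_unit_iff h3.1.1).2
    have hxu : ∀ i, IsUnit (x i).det := by
      intro i
      have h7 := (Matrix.isUnit_iff_isUnit_det _).1 (h6 i)
      rw [Matrix.det_unique] at h7
      exact h7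
    have h7 := h3.2
    rw [psi_blocks] at h7
    have h8 := hst (fun i => x i * (dia (e i) (x i).det)⁻¹) (fun i => by
      rw [Matrix.det_mul, Matrix.det_nonsing_inv, det_dia]
      exact Ring.mul_inverse_cancel _ (hxu i)) _ h7
    rw [blocks_mul, Matrix.one_mul] at h8
    have h9 : (fun i => x i * (dia (e i) (x i).det)⁻¹ * dia (e i) (dets x i () ())) = x := by
      funext i
      have h10 : IsUnit (dia (e i) (x i).det).det := by
        rw [det_dia]
        exact hxu i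
      change x i * (dia (e i) (x i).det)⁻¹ * dia (e i) (x i).det = x i
      rw [Matrix.mul_assoc, Matrix.nonsing_inv_mul _ h10, Matrix.mul_one]
    rw [h9] at h8
    exact h8

end Pool.Agent.R919.TR
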