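import Mathlib
import Pool.Agent.R919.TR.Main

/-!
# The smallest subtorsor as a fibre product over the torsor of the Tate object
-/

set_option linter.unusedSectionVars false
set_option autoImplicit false

open Matrix MvPolynomial

namespace Pool.Agent.R919.TR

open Pool.Agent.TH127.PT Pool.Agent.Y123.ST Pool.Agent.R919 Pool.Agent.R919.GT Pool.Agent.R919.DR

section

variable {A ι κ : Type} [Fintype A] [DecidableEq A] [Fintype ι] [DecidableEq ι] [Fintype κ]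
  [DecidableEq κ] {K : Subfield ℂ}

theorem ones_unit {z : ι → ℂ} (h : ∀ i, z i ≠ 0) : ∀ i, IsUnit (ones z i) := by
  intro i
  rw [Matrix.isUnit_iff_isUnit_det, Matrix.det_unique]
  exact isUnit_iff_ne_zero.2 (h i)

theorem eq_ones (x : ι → Matrix Unit Unit ℂ) : x = ones fun i => x i () () := rfl

theorem unit_ne {z : Matrix Unit Unit ℂ} (hz : IsUnit z) : z () () ≠ 0 := by
  rw [Matrix.isUnit_iff_isUnit_det, Matrix.det_unique] at hz
  exact hz.ne_zero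

theorem inv_one {z : Matrix Unit Unit ℂ} (hz : IsUnit z) : z⁻¹ () () = (z () ())⁻¹ := by
  have h1 : z⁻¹ = Matrix.of fun _ _ => (z () ())⁻¹ := by
    apply Matrix.inv_eq_right_inv
    ext a b
    rw [Matrix.mul_apply, Fintype.sum_unique, Subsingleton.elim a b, Matrix.one_apply_eq,
      Matrix.of_apply]
    exact mul_inv_cancel₀ (unit_ne hz)
  rw [h1]
  rfl

theorem mul_one' (z w : Matrix Unit Unit ℂ) : (z * w) () () = z () () * w () () := by
  rw [Matrix.mul_apply, Fintype.sum_unique]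

/-- Reindexing of the scalars with factors. -/
noncomputable def rsc (r : κ → ι) (a : κ → ℂ)
    (Y : Matrix (A ⊕ Σ _ : ι, Unit) (A ⊕ Σ _ : ι, Unit) ℂ) :
    Matrix (A ⊕ Σ _ : κ, Unit) (A ⊕ Σ _ : κ, Unit) ℂ :=
  blocks (blA Y) (ones fun k => a k * blC Y (r k) () ())

theorem rsc_blocks (r : κ → ι) (a : κ → ℂ) (y : Matrix A A ℂ) (z : ι → ℂ) :
    rsc r a (blocks y (ones z)) = blocks y (ones fun k => a k * z (r k)) := by
  have h : ∀ k, blC (blocks y (ones z)) (r k) () () = z (r k) := fun k => by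
    rw [blC_blocks]
    rfl
  rw [rsc, blA_blocks]
  simp only [h]

/-- The polynomials. -/
noncomputable def srsc (r : κ → ι) (a : κ → ℂ) : (A ⊕ Σ _ : κ, Unit) × (A ⊕ Σ _ : κ, Unit) →
    MvPolynomial ((A ⊕ Σ _ : ι, Unit) × (A ⊕ Σ _ : ι, Unit)) ℂ
  | (Sum.inl b, Sum.inl c) => X (Sum.inl b, Sum.inl c)
  | (Sum.inr j, Sum.inr k) => if j.1 = k.1 then
      C (a j.1) * X (Sum.inr ⟨r j.1, ()⟩, Sum.inr ⟨r j.1, ()⟩) else 0
  | (Sum.inl _, Sum.inr _) => 0
  | (Sum.inr _, Sum.inl _) => 0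

theorem sub_rsc (r : κ → ι) (a : κ → ℂ) (ha : ∀ k, a k ∈ K) (ha0 : ∀ k, a k ≠ 0)
    {D : Set (Matrix (A ⊕ Σ _ : ι, Unit) (A ⊕ Σ _ : ι, Unit) ℂ)} (hD : IsSubtorsor K D)
    (hDB : D ⊆ Blk (colr (A := A) (C := fun _ : ι => Unit)))
    {T : Set (Matrix (A ⊕ Σ _ : κ, Unit) (A ⊕ Σ _ : κ, Unit) ℂ)} (hT : IsSubtorsor K T) :
    IsSubtorsor K {Y : Matrix (A ⊕ Σ _ : ι, Unit) (A ⊕ Σ _ : ι, Unit) ℂ |
      Y ∈ D ∧ rsc r a Y ∈ T} := by
  refine sub_pull hD hT (rsc r a) (srsc r a) ?_ ?_ ?_ ?_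
  · rintro ⟨b | j, c | k⟩ m
    · exact kp_X _ m
    · exact kp_zero m
    · exact kp_zero m
    · change coeff m (if j.1 = k.1 then _ else _) ∈ K
      split_ifs
      · rw [coeff_C_mul]
        exact K.mul_mem (ha _) (kp_X _ m)
      · exact kp_zero m
  · intro x hx b c
    obtain ⟨y, z, _, _, rfl⟩ := mem_blk.1 (hDB hx)
    rw [eq_ones z, rsc_blocks]
    rcases b with b | ⟨j, ⟨⟩⟩ <;> rcases c with c | ⟨k, ⟨⟩⟩
    · rw [blocks_ll]
      change _ = eval _ (X _)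
      rw [eval_X]
      rfl
    · rw [blocks_lr]
      change _ = eval _ 0
      rw [map_zero]
    · rw [blocks_rl]
      change _ = eval _ 0
      rw [map_zero]
    · change _ = eval _ (if j = k then _ else _)
      by_cases h : j = k
      · subst h
        rw [blocks_rr, if_pos rfl, map_mul, eval_C, eval_X]
        change a j * z (r j) () () = _
        congr 1
        exact (blocks_rr (C := fun _ : ι => Unit) y (ones fun i => z i () ()) (r j) () ()).symm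
      · rw [if_neg h, blocks_rr_ne _ _ h, map_zero]
  · intro x hx
    obtain ⟨y, z, hy, hz, rfl⟩ := mem_blk.1 (hDB hx)
    rw [eq_ones z, rsc_blocks]
    exact blocks_unit hy (ones_unit fun k => mul_ne_zero (ha0 k) (unit_ne (hz _)))
  · intro x hx y hy z hz
    obtain ⟨x0, x1, _, _, rfl⟩ := mem_blk.1 (hDB hx)
    obtain ⟨y0, y1, hy0, hy1, rfl⟩ := mem_blk.1 (hDB hy)
    obtain ⟨z0, z1, _, _, rfl⟩ := mem_blk.1 (hDB hz)
    have h1 : (fun j => x1 j * (y1 j)⁻¹ * z1 j) =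
        ones fun j => x1 j () () * (y1 j () ())⁻¹ * z1 j () () := by
      funext j
      ext b c
      rcases b with ⟨⟩
      rcases c with ⟨⟩
      rw [mul_one', mul_one', inv_one (hy1 j)]
      rfl
    rw [blocks_tor hy0 hy1, h1, rsc_blocks]
    conv_rhs => rw [eq_ones x1, eq_ones y1, eq_ones z1, rsc_blocks, rsc_blocks, rsc_blocks]
    rw [blocks_tor hy0 (ones_unit fun k => mul_ne_zero (ha0 k) (unit_ne (hy1 _)))]
    congr 1
    funext k
    ext b c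
    rcases b with ⟨⟩
    rcases c with ⟨⟩
    rw [mul_one', mul_one', inv_one (ones_unit
      (fun k => mul_ne_zero (ha0 k) (unit_ne (hy1 (r k)))) k)]
    have h2 : y1 (r k) () () ≠ 0 := unit_ne (hy1 _)
    have h3 := ha0 k
    change a k * (x1 (r k) () () * (y1 (r k) () ())⁻¹ * z1 (r k) () ()) =
      a k * x1 (r k) () () * (a k * y1 (r k) () ())⁻¹ * (a k * z1 (r k) () ())
    field_simp

/-- The block diagonal matrices with proportional scalars. -/
def Prp (A : Type) [Fintype A] [DecidableEq A] (a : ι → ℂ) :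
    Set (Matrix (A ⊕ Σ _ : ι, Unit) (A ⊕ Σ _ : ι, Unit) ℂ) :=
  {Y | Y ∈ Blk (colr (A := A) (C := fun _ : ι => Unit)) ∧ ∀ i j : ι,
    a j * Y (Sum.inr ⟨i, ()⟩) (Sum.inr ⟨i, ()⟩) = a i * Y (Sum.inr ⟨j, ()⟩) (Sum.inr ⟨j, ()⟩)}

theorem mem_prp [Nonempty ι] {a : ι → ℂ} (ha0 : ∀ i, a i ≠ 0)
    {Y : Matrix (A ⊕ Σ _ : ι, Unit) (A ⊕ Σ _ : ι, Unit) ℂ} : Y ∈ Prp A a ↔
      ∃ y z, IsUnit y ∧ z ≠ 0 ∧ Y = blocks y (ones fun i => a i * z) := by
  constructor
  · rintro ⟨hY, h⟩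
    obtain ⟨y, z, hy, hz, rfl⟩ := mem_blk.1 hY
    obtain ⟨i0⟩ := (inferInstance : Nonempty ι)
    refine ⟨y, z i0 () () / a i0, hy, div_ne_zero (unit_ne (hz i0)) (ha0 i0), ?_⟩
    congr 1
    funext i
    ext b c
    rcases b with ⟨⟩
    rcases c with ⟨⟩
    have h1 := h i i0
    rw [blocks_rr (C := fun _ : ι => Unit), blocks_rr (C := fun _ : ι => Unit)] at h1
    have h2 := ha0 i0
    change z i () () = a i * (z i0 () () / a i0)
    field_simp
    linear_combination h1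
  · rintro ⟨y, z, hy, hz, rfl⟩
    refine ⟨mem_blk.2 ⟨y, _, hy, ones_unit fun i => mul_ne_zero (ha0 i) hz, rfl⟩, fun i j => ?_⟩
    rw [blocks_rr (C := fun _ : ι => Unit), blocks_rr (C := fun _ : ι => Unit)]
    change a j * (a i * z) = a i * (a j * z)
    ring

theorem prp_sub [Nonempty ι] {a : ι → ℂ} (ha : ∀ i, a i ∈ K) (ha0 : ∀ i, a i ≠ 0) :
    IsSubtorsor K (Prp A a) := by
  obtain ⟨I, h1, h2⟩ := (blk_sub K (colr (A := A) (C := fun _ : ι => Unit))).algebraic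
  refine ⟨fun x hx => hx.1.1, fun x hx y hy z hz => ?_,
    I ∪ {p | ∃ i j : ι, p = C (a j) * X (Sum.inr ⟨i, ()⟩, Sum.inr ⟨i, ()⟩) -
      C (a i) * X (Sum.inr ⟨j, ()⟩, Sum.inr ⟨j, ()⟩)}, ?_, ?_⟩
  · obtain ⟨x0, x1, _, _, rfl⟩ := (mem_prp ha0).1 hx
    obtain ⟨y0, y1, hy0, hy1, rfl⟩ := (mem_prp ha0).1 hy
    obtain ⟨z0, z1, hz0, hz1, rfl⟩ := (mem_prp ha0).1 hz
    have hx' := (mem_prp ha0).1 hx
    rw [blocks_tor hy0 (ones_unit fun i => mul_ne_zero (ha0 i) hy1)]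
    obtain ⟨x0', x1', hx0', hx1', hxx⟩ := hx'
    obtain ⟨hx2, hx3⟩ := blocks_inj hxx
    refine (mem_prp ha0).2 ⟨x0 * y0⁻¹ * z0, x1 * y1⁻¹ * z1, ?_, ?_, ?_⟩
    · rw [hx2]
      exact (hx0'.mul ((Matrix.isUnit_nonsing_inv_iff).2 hy0)).mul hz0
    · have h3 : x1 ≠ 0 := by
        rintro rfl
        obtain ⟨i0⟩ := (inferInstance : Nonempty ι)
        have h4 := congrFun (congrFun (congrFun hx3 i0) ()) ()
        change a i0 * 0 = a i0 * x1' at h4
        rw [mul_zero] at h4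
        exact mul_ne_zero (ha0 i0) hx1' h4.symm
      exact mul_ne_zero (mul_ne_zero h3 (inv_ne_zero hy1)) hz1
    · congr 1
      funext i
      ext b c
      rcases b with ⟨⟩
      rcases c with ⟨⟩
      rw [mul_one', mul_one', inv_one (ones_unit (fun i => mul_ne_zero (ha0 i) hy1) i)]
      have h3 := ha0 i
      change a i * x1 * (a i * y1)⁻¹ * (a i * z1) = a i * (x1 * y1⁻¹ * z1)
      field_simp
  · rintro p (hp | ⟨i, j, rfl⟩) m
    · exact h1 p hp m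
    · rw [coeff_sub, coeff_C_mul, coeff_C_mul]
      exact K.sub_mem (K.mul_mem (ha _) (kp_X _ m)) (K.mul_mem (ha _) (kp_X _ m))
  · intro x
    constructor
    · rintro ⟨hx, hx'⟩
      refine ⟨hx.1, ?_⟩
      rintro p (hp | ⟨i, j, rfl⟩)
      · exact ((h2 x).1 hx).2 p hp
      · rw [map_sub, map_mul, map_mul, eval_C, eval_C, eval_X, eval_X]
        exact sub_eq_zero.2 (hx' i j)
    · rintro ⟨hx, hx'⟩
      refine ⟨(h2 x).2 ⟨hx, fun p hp => hx' p (Or.inl hp)⟩, fun i j => ?_⟩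
      have h3 := hx' _ (Or.inr ⟨i, j, rfl⟩)
      rw [map_sub, map_mul, map_mul, eval_C, eval_C, eval_X, eval_X] at h3
      exact sub_eq_zero.1 h3

/-- Proportional scalars. -/
theorem omega_prop [Nonempty ι] {a : ι → ℂ} (ha : ∀ i, a i ∈ K) (ha0 : ∀ i, a i ≠ 0) {ϖ : ℂ}
    (hϖ : ϖ ≠ 0) {C : Matrix A A ℂ} (hC : IsUnit C) (y : Matrix A A ℂ) (w : ι → ℂ) :
    blocks y (ones w) ∈ Omega K (blocks C (ones fun i => a i * ϖ)) ↔
      ∃ z, (∀ i, w i = a i * z) ∧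
        blocks y (ones fun _ : Unit => z) ∈ Omega K (blocks C (ones fun _ : Unit => ϖ)) := by
  obtain ⟨i0⟩ := (inferInstance : Nonempty ι)
  constructor
  · intro h
    obtain ⟨y', z, _, hz, h1⟩ := (mem_prp ha0).1 (h _ (prp_sub (A := A) ha ha0)
      ((mem_prp ha0).2 ⟨C, ϖ, hC, hϖ, rfl⟩))
    obtain ⟨rfl, h2⟩ := blocks_inj h1
    have hw : w = fun i => a i * z := by
      funext i
      exact congrFun (congrFun (congrFun h2 i) ()) ()
    subst hw
    refine ⟨z, fun i => rfl, fun T hT hcT => ?_⟩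
    have h3 := (h _ (sub_rsc (K := K) (fun _ : Unit => i0) (fun _ => (a i0)⁻¹)
      (fun _ => K.inv_mem (ha i0)) (fun _ => inv_ne_zero (ha0 i0)) (blk_sub K _)
      (Set.Subset.refl _) hT) ⟨mem_blk.2 ⟨C, _, hC,
        ones_unit fun i => mul_ne_zero (ha0 i) hϖ, rfl⟩, by
        rw [rsc_blocks]
        have h4 : (fun _ : Unit => (a i0)⁻¹ * (a i0 * ϖ)) = fun _ => ϖ := by
          funext _
          rw [inv_mul_cancel_left₀ (ha0 i0)]
        rw [h4]
        exact hcT⟩).2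
    rw [rsc_blocks] at h3
    have h4 : (fun _ : Unit => (a i0)⁻¹ * (a i0 * z)) = fun _ => z := by
      funext _
      rw [inv_mul_cancel_left₀ (ha0 i0)]
    rwa [h4] at h3
  · rintro ⟨z, hz, h⟩ T hT hcT
    have hw : w = fun i => a i * z := funext hz
    subst hw
    have h3 := (h _ (sub_rsc (K := K) (fun _ : ι => ()) a ha ha0 (blk_sub K _)
      (Set.Subset.refl _) hT) ⟨mem_blk.2 ⟨C, _, hC, ones_unit fun _ => hϖ, rfl⟩, by
        rw [rsc_blocks]
        exact hcT⟩).2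
    rw [rsc_blocks] at h3
    exact h3

end

section

variable {J : Type} [DecidableEq J] {B : J → Type} [∀ j, Fintype (B j)] [∀ j, DecidableEq (B j)]

/-- **The main theorem, fibre product form.** -/
theorem main_tate {ϖ : ℂ} (hϖ : ϖ ≠ 0) (c : ∀ j, Matrix (B j) (B j) ℂ)
    (hc : ∀ j, IsUnit (c j).det)
    (o : J) (Q R : Matrix (B o) (B o) ℂ) (hQa : IsAlg Q) (hQu : Q.det ≠ 0) (hR : IsAlg R) (w : ℤ)
    (hQ : (c o)ᵀ * Q * c o = ϖ ^ w • R) (h1 : ∀ j, j ≠ o → IsEll ϖ (c j))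
    (h2 : ∀ i j, i ≠ o → j ≠ o → i ≠ j → NoHm (c i) (c j)) :
    ∃ S : Finset J, o ∉ S ∧ 2 * S.card ≤ Fintype.card (B o) ∧
      ∀ (ι : Type) [Fintype ι] [DecidableEq ι] [Nonempty ι] (f : ι → J), Function.Injective f →
        (∀ i, f i ≠ o) → (∀ i, f i ∉ S) →
          Omega Qb (blocks (c o) fun i => c (f i)) = {X | ∃ y x z, X = blocks y x ∧
            (∀ i, (x i).det = (c (f i)).det / ϖ * z) ∧
            blocks y (ones fun _ : Unit => z) ∈
              Omega Qb (blocks (c o) (ones fun _ : Unit => ϖ))} := by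
  obtain ⟨S, hS1, hS2, hS3⟩ := main hϖ c hc o Q R hQa hQu hR w hQ h1 h2
  refine ⟨S, hS1, hS2, fun ι _ _ _ f hf hfo hfS => ?_⟩
  rw [hS3 ι f hf hfo hfS Qb fun x hx => mem_Qb.1 hx]
  have ha : ∀ i, (c (f i)).det / ϖ ∈ Qb := by
    intro i
    obtain ⟨a, _, ha, hdet⟩ := (h1 (f i) (hfo i)).det
    rw [hdet, mul_div_assoc, div_self hϖ, mul_one]
    exact mem_Qb.2 ha
  have ha0 : ∀ i, (c (f i)).det / ϖ ≠ 0 := fun i => div_ne_zero (hc (f i)).ne_zero hϖ
  have hb : (dets fun i => c (f i)) = ones fun i => (c (f i)).det / ϖ * ϖ := by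
    funext i
    ext b d
    change (c (f i)).det = (c (f i)).det / ϖ * ϖ
    field_simp
  have hu : IsUnit (c o) := (Matrix.isUnit_iff_isUnit_det _).2 (hc o)
  ext X
  constructor
  · rintro ⟨y, x, rfl, h⟩
    rw [hb] at h
    obtain ⟨z, hz, h3⟩ := (omega_prop ha ha0 hϖ hu y fun i => (x i).det).1 h
    exact ⟨y, x, z, rfl, hz, h3⟩
  · rintro ⟨y, x, z, rfl, hz, h3⟩
    refine ⟨y, x, rfl, ?_⟩
    rw [hb]
    exact (omega_prop ha ha0 hϖ hu y fun i => (x i).det).2 ⟨z, hz, h3⟩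

end

end Pool.Agent.R919.TR
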